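import Mathlib

/-!
# Walks on a set of type `ω₁`, the oscillation function and the group

`Ω` is a well ordered set with countable initial segments which is not countable.
-/

open Set

namespace Pool.Agent.H14.Fre

/-- `Ω` is an uncountable well order with countable initial segments. -/
class Om1 (Ω : Type) [LinearOrder Ω] : Prop where
  wf : WellFoundedLT Ω
  countable_Iio : ∀ β : Ω, (Iio β).Countable
  uncountable : ¬ Countable Ω

instance {Ω : Type} [LinearOrder Ω] [Om1 Ω] : WellFoundedLT Ω := Om1.wf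

section Walks

variable {Ω : Type} [LinearOrder Ω] [OrderBot Ω]

/-- A `C`-sequence: for every `β > ⊥` a nondecreasing sequence `c β 0 = ⊥, c β 1, ...` of elements
below `β`, cofinal in `β`. -/
structure CSeq (Ω : Type) [LinearOrder Ω] [OrderBot Ω] where
  c : Ω → ℕ → Ω
  mono : ∀ β, Monotone (c β)
  zero : ∀ β, c β 0 = ⊥
  lt : ∀ β, ⊥ < β → ∀ n, c β n < β
  cof : ∀ α β, α < β → ∃ n, α ≤ c β n

namespace CSeq

variable (C : CSeq Ω)

open Classical in
/-- The first `n` with `α ≤ c β n`. -/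
noncomputable def N (α β : Ω) : ℕ := if h : ∃ n, α ≤ C.c β n then Nat.find h else 0

/-- The next step of the walk from `β` to `α`. -/
noncomputable def s (α β : Ω) : Ω := C.c β (C.N α β)

/-- The largest element of `C_β` below `α`. -/
noncomputable def m (α β : Ω) : Ω := C.c β (C.N α β - 1)

theorem le_s {α β : Ω} (h : α < β) : α ≤ C.s α β := by
  have h1 := C.cof α β h
  unfold s N
  rw [dif_pos h1]
  exact Nat.find_spec h1

theorem s_lt {α β : Ω} (h : α < β) : C.s α β < β := C.lt β (lt_of_le_of_lt bot_le h) _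

theorem m_lt {α β : Ω} (h0 : ⊥ < α) (h : α < β) : C.m α β < α := by
  have h1 := C.cof α β h
  unfold m N
  rw [dif_pos h1]
  have h2 : Nat.find h1 ≠ 0 := by
    intro h3
    have := Nat.find_spec h1
    rw [h3, C.zero] at this
    exact absurd h0 (not_lt.2 this)
  have := Nat.find_min h1 (Nat.sub_lt (Nat.pos_of_ne_zero h2) one_pos)
  exact not_le.1 this

/-- The weight function `e_β(ξ) = e ξ β`. -/
noncomputable def e [WellFoundedLT Ω] (ξ β : Ω) : ℕ :=
  if h : ξ < β then max (C.N ξ β) (e ξ (C.s ξ β)) else 0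
termination_by (wellFounded_lt (α := Ω)).wrap β
decreasing_by exact C.s_lt h

/-- The lower trace of the walk from `β` to `α`, as an increasing list. -/
noncomputable def L [WellFoundedLT Ω] (α β : Ω) : List Ω :=
  if h : α < β then C.m α β :: (L α (C.s α β)).filter (fun x => C.m α β < x) else []
termination_by (wellFounded_lt (α := Ω)).wrap β
decreasing_by exact C.s_lt h

end CSeq

/-- The number of oscillations of `s` and `t` along a list. -/
noncomputable def osc {Ω : Type} (s t : Ω → ℕ) : List Ω → ℕ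
  | [] => 0
  | [_] => 0
  | x :: y :: l => (if s x ≤ t x ∧ t y < s y then 1 else 0) + osc s t (y :: l)

/-- The oscillation function. -/
noncomputable def CSeq.o [WellFoundedLT Ω] (C : CSeq Ω) (α β : Ω) : ℕ :=
  osc (fun ξ => C.e ξ α) (fun ξ => C.e ξ β) (C.L α β)

/-- `S` is stationary: every function has a closure point `> ⊥` in `S`. -/
def Stat (S : Set Ω) : Prop := ∀ f : Ω → Ω, ∃ δ ∈ S, ⊥ < δ ∧ ∀ ξ < δ, f ξ < δ

end Walks

/-- A phase function: bounded coherence and the shift property. -/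
structure Phase (Ω : Type) [LinearOrder Ω] where
  o : Ω → Ω → ℕ
  bdd : ∀ δ γ, δ < γ → ∃ N : ℕ, ∀ ξ < δ, o ξ γ ≤ o ξ δ + N ∧ o ξ δ ≤ o ξ γ + N
  shift : ∀ D : Set Ω, ¬ D.Countable → ∀ (m : ℕ) (a : Ω → Fin m → Ω),
    (∀ x ∈ D, ∀ i, x ≤ a x i) → ∀ k : ℕ, ∃ x ∈ D, ∃ d : ℕ → Ω, ∀ j < k,
      d j ∈ D ∧ x < d j ∧ (∀ i, a x i < d j) ∧ ∀ i, o (a x i) (d j) = o (a x i) (d 0) + j

section Group

/-- The index set of the group. -/
abbrev Idx (Ω : Type) : Type := ℕ × Ω × Bool

/-- The underlying group: finitely supported functions to `ℤ`. -/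
abbrev Gr (Ω : Type) : Type := Idx Ω →₀ ℤ

/-- The norm `∑ 2^(-n) |g (n, ξ, b)|`. -/
noncomputable def nrm {Ω : Type} (g : Gr Ω) : ℝ := g.sum fun i z => (1 / 2 : ℝ) ^ i.1 * |(z : ℝ)|

/-- The two phases `0` and `-π/2`: `cos (x + φ)` is `cos x` or `sin x`. -/
noncomputable def phi (b : Bool) : ℝ := if b then -(Real.pi / 2) else 0

variable {Ω : Type} [LinearOrder Ω]

/-- The coefficients of the homomorphism `w δ`. -/
noncomputable def coef (o : Ω → Ω → ℕ) (δ : Ω) (i : Idx Ω) : ℝ :=
  if i.2.1 < δ then Real.cos ((1 / 2 : ℝ) ^ i.1 * o i.2.1 δ + phi i.2.2) else 0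

/-- The homomorphisms `w δ : Gr Ω → ℝ`. -/
noncomputable def w (o : Ω → Ω → ℕ) (δ : Ω) : Gr Ω →+ ℝ :=
  Finsupp.liftAddHom fun i => (AddMonoidHom.mulRight (coef o δ i)).comp (Int.castAddHom ℝ)

end Group

end Pool.Agent.H14.Fre
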