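import Pool.Agent.H14.Fre.Defs

/-!
# Module E: the weight function is finite-to-one and coherent
-/

open Set

namespace Pool.Agent.H14.Fre

variable {Ω : Type} [LinearOrder Ω] [OrderBot Ω] [WellFoundedLT Ω] (C : CSeq Ω)

theorem CSeq.eE_of_lt {ξ β : Ω} (h : ξ < β) : C.e ξ β = max (C.N ξ β) (C.e ξ (C.s ξ β)) := by
  rw [CSeq.e, dif_pos h]

theorem CSeq.eE_of_le {ξ β : Ω} (h : β ≤ ξ) : C.e ξ β = 0 := by
  rw [CSeq.e, dif_neg (not_lt.2 h)]

theorem CSeq.e_finite (β : Ω) (k : ℕ) : {ξ | ξ < β ∧ C.e ξ β ≤ k}.Finite := by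
  induction β using WellFoundedLT.induction generalizing k with
  | ind β ih =>
  by_cases hβ : ⊥ < β
  · have hfin : (⋃ j ∈ Set.Iic k, ({ξ | ξ < C.c β j ∧ C.e ξ (C.c β j) ≤ k} ∪ {C.c β j})).Finite := by
      apply Set.Finite.biUnion (Set.finite_Iic k)
      intro j _
      exact (ih (C.c β j) (C.lt β hβ j) k).union (Set.finite_singleton _)
    apply hfin.subset
    rintro ξ ⟨h1, h2⟩
    rw [C.eE_of_lt h1] at h2
    rw [Set.mem_iUnion₂]
    refine ⟨C.N ξ β, (le_max_left _ _).trans h2, ?_⟩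
    have h3 : ξ ≤ C.c β (C.N ξ β) := C.le_s h1
    rcases h3.lt_or_eq with h4 | h4
    · left
      exact ⟨h4, (le_max_right _ _).trans h2⟩
    · right
      exact h4
  · apply Set.finite_empty.subset
    rintro ξ ⟨h1, _⟩
    exact absurd (lt_of_le_of_lt bot_le h1) hβ

omit [WellFoundedLT Ω] in
theorem CSeq.eE_N_mono {ξ α β : Ω} (h1 : ξ < α) (h2 : α < β) : C.N ξ β ≤ C.N α β := by
  have h3 := C.le_s h2
  have h4 : ∃ n, ξ ≤ C.c β n := ⟨C.N α β, h1.le.trans h3⟩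
  have h5 : C.N ξ β = Nat.find h4 := by
    unfold CSeq.N
    rw [dif_pos h4]
  rw [h5]
  exact Nat.find_min' h4 (h1.le.trans h3)

theorem CSeq.e_coh {α β : Ω} (h : α < β) : {ξ | ξ < α ∧ C.e ξ α ≠ C.e ξ β}.Finite := by
  induction β using WellFoundedLT.induction generalizing α with
  | ind β ih =>
  have hβ : ⊥ < β := lt_of_le_of_lt bot_le h
  -- the finite sets
  have key : ∀ j : ℕ, ({ξ | ξ < α ∧ ξ < C.c β j ∧ C.e ξ α ≠ C.e ξ (C.c β j)} : Set Ω).Finite := by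
    intro j
    rcases lt_trichotomy (C.c β j) α with hσ | hσ | hσ
    · apply (ih α h hσ).subset
      rintro ξ ⟨_, h2, h3⟩
      exact ⟨h2, Ne.symm h3⟩
    · apply Set.finite_empty.subset
      rintro ξ ⟨_, _, h3⟩
      rw [hσ] at h3
      exact absurd rfl h3
    · apply (ih (C.c β j) (C.lt β hβ j) hσ).subset
      rintro ξ ⟨h1, _, h3⟩
      exact ⟨h1, h3⟩
  have hfin : (⋃ j ∈ Set.Iic (C.N α β),
      ({ξ | ξ < α ∧ ξ < C.c β j ∧ C.e ξ α ≠ C.e ξ (C.c β j)} ∪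
        ({ξ | ξ < C.c β j ∧ C.e ξ (C.c β j) ≤ j} ∪ {C.c β j}))).Finite := by
    apply Set.Finite.biUnion (Set.finite_Iic _)
    intro j _
    exact (key j).union ((C.e_finite (C.c β j) j).union (Set.finite_singleton _))
  apply hfin.subset
  rintro ξ ⟨h1, h2⟩
  have h3 : ξ < β := h1.trans h
  rw [C.eE_of_lt h3] at h2
  rw [Set.mem_iUnion₂]
  refine ⟨C.N ξ β, C.eE_N_mono h1 h, ?_⟩
  have h4 : ξ ≤ C.c β (C.N ξ β) := C.le_s h3
  rcases h4.lt_or_eq with h5 | h5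
  · by_cases h6 : C.e ξ (C.c β (C.N ξ β)) ≤ C.N ξ β
    · right; left; exact ⟨h5, h6⟩
    · left
      refine ⟨h1, h5, ?_⟩
      intro h7
      apply h2
      rw [h7]
      show C.e ξ (C.c β (C.N ξ β)) = max (C.N ξ β) (C.e ξ (C.c β (C.N ξ β)))
      rw [max_eq_right (not_le.1 h6).le]
  · right; right; exact h5

end Pool.Agent.H14.Fre
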