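import Pool.Agent.H14.Fre.Defs

/-!
# Module L: the lower trace
-/

open Set

namespace Pool.Agent.H14.Fre

section Walks

variable {Ω : Type} [LinearOrder Ω] [OrderBot Ω] [WellFoundedLT Ω] (C : CSeq Ω)

theorem CSeq.N_spec {α β : Ω} (h : α < β) : α ≤ C.c β (C.N α β) := C.le_s h

theorem CSeq.N_min {α β : Ω} {n : ℕ} (h : α ≤ C.c β n) : C.N α β ≤ n := by
  classical
  have h1 : ∃ n, α ≤ C.c β n := ⟨n, h⟩
  unfold CSeq.N
  rw [dif_pos h1]
  exact Nat.find_min' h1 h

theorem CSeq.L_of_le {α β : Ω} (h : β ≤ α) : C.L α β = [] := by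
  rw [CSeq.L, dif_neg (not_lt.2 h)]

theorem CSeq.L_of_lt {α β : Ω} (h : α < β) :
    C.L α β = C.m α β :: (C.L α (C.s α β)).filter (fun x => C.m α β < x) := by
  rw [CSeq.L, dif_pos h]

theorem CSeq.L_ne_nil {α β : Ω} (h : α < β) : C.L α β ≠ [] := by
  rw [C.L_of_lt h]
  exact List.cons_ne_nil _ _

theorem CSeq.L_lt {α β : Ω} (h0 : ⊥ < α) {x : Ω} (hx : x ∈ C.L α β) : x < α := by
  induction β using WellFoundedLT.induction with
  | ind β ih =>
    rcases lt_or_ge α β with h | h
    · rw [C.L_of_lt h] at hx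
      rcases List.mem_cons.1 hx with rfl | hx
      · exact C.m_lt h0 h
      · exact ih _ (C.s_lt h) (List.mem_filter.1 hx).1
    · rw [C.L_of_le h] at hx
      exact absurd hx List.not_mem_nil

theorem CSeq.L_ge_m {α β x : Ω} (h : α < β) (hx : x ∈ C.L α β) : C.m α β ≤ x := by
  rw [C.L_of_lt h] at hx
  rcases List.mem_cons.1 hx with rfl | hx
  · exact le_rfl
  · exact (of_decide_eq_true (List.mem_filter.1 hx).2).le

theorem CSeq.L_sorted (α β : Ω) : (C.L α β).Pairwise (· < ·) := by
  induction β using WellFoundedLT.induction with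
  | ind β ih =>
    rcases lt_or_ge α β with h | h
    · rw [C.L_of_lt h]
      refine List.Pairwise.cons ?_ ?_
      · intro x hx
        exact of_decide_eq_true (List.mem_filter.1 hx).2
      · exact (ih _ (C.s_lt h)).filter _
    · rw [C.L_of_le h]
      exact List.Pairwise.nil

theorem CSeq.L_append {α β γ : Ω} (h0 : ⊥ < α) (h1 : α < β) (h2 : β ≤ γ)
    (h : ∀ x ∈ C.L β γ, ∀ y ∈ C.L α β, x < y) : C.L α γ = C.L β γ ++ C.L α β := by
  induction γ using WellFoundedLT.induction with
  | ind γ ih =>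
    rcases eq_or_lt_of_le h2 with rfl | hlt
    · rw [C.L_of_le le_rfl, List.nil_append]
    · have hβ0 : ⊥ < β := h0.trans h1
      obtain ⟨y, hy⟩ : ∃ y, y ∈ C.L α β := List.exists_mem_of_ne_nil _ (C.L_ne_nil h1)
      have hmy : C.m β γ < y := h _ (by rw [C.L_of_lt hlt]; exact List.mem_cons_self) y hy
      have hmα : C.m β γ < α := hmy.trans (C.L_lt h0 hy)
      have hN : C.N α γ = C.N β γ := by
        apply le_antisymm
        · apply C.N_min
          exact h1.le.trans (C.N_spec hlt)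
        · by_contra hcon
          push Not at hcon
          have h3 : C.c γ (C.N α γ) ≤ C.c γ (C.N β γ - 1) := C.mono γ (by omega)
          have h4 : α ≤ C.c γ (C.N α γ) := C.N_spec (h1.trans hlt)
          exact absurd (h4.trans h3) (not_le.2 hmα)
      have hm : C.m α γ = C.m β γ := by unfold CSeq.m; rw [hN]
      have hs : C.s α γ = C.s β γ := by unfold CSeq.s; rw [hN]
      have hβs : β ≤ C.s β γ := C.le_s hlt
      have hIH : C.L α (C.s β γ) = C.L β (C.s β γ) ++ C.L α β := by
        apply ih _ (C.s_lt hlt) hβs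
        intro x hx y hy
        rcases le_or_gt x (C.m β γ) with hle | hgt
        · refine hle.trans_lt (h _ ?_ y hy)
          rw [C.L_of_lt hlt]; exact List.mem_cons_self
        · refine h _ ?_ y hy
          rw [C.L_of_lt hlt]
          refine List.mem_cons_of_mem _ (List.mem_filter.2 ⟨hx, ?_⟩)
          exact decide_eq_true hgt
      rw [C.L_of_lt (h1.trans hlt), C.L_of_lt hlt, hm, hs, hIH, List.filter_append,
        List.cons_append]
      congr 2
      apply List.filter_eq_self.2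
      intro y hy
      apply decide_eq_true
      refine h _ ?_ y hy
      rw [C.L_of_lt hlt]; exact List.mem_cons_self

theorem CSeq.L_large {ζ δ : Ω} (h : ζ < δ) :
    ∃ η < δ, ∀ ξ, η < ξ → ξ < δ → ∀ x ∈ C.L ξ δ, ζ ≤ x := by
  obtain ⟨n, hn⟩ := C.cof ζ δ h
  refine ⟨C.c δ n, C.lt δ (lt_of_le_of_lt bot_le h) n, ?_⟩
  intro ξ h1 h2 x hx
  have h3 : n < C.N ξ δ := by
    by_contra hcon
    push Not at hcon
    have h4 : ξ ≤ C.c δ (C.N ξ δ) := C.N_spec h2
    have h5 : C.c δ (C.N ξ δ) ≤ C.c δ n := C.mono δ hcon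
    exact absurd (h4.trans h5) (not_le.2 h1)
  have h6 : C.c δ n ≤ C.m ξ δ := C.mono δ (by omega)
  exact (hn.trans h6).trans (C.L_ge_m h2 hx)

end Walks

end Pool.Agent.H14.Fre
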