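import Pool.Agent.H14.Fre.FB
import Pool.Agent.H14.Fre.E
import Pool.Agent.H14.Fre.L

open Set

namespace Pool.Agent.H14.Fre

variable {Ω : Type} [LinearOrder Ω] [OrderBot Ω] [Om1 Ω] (C : CSeq Ω)

/-- The extension property of the pair `(a x, b)` at `δ`. -/
def Ext (D : Set Ω) {m : ℕ} (a : Ω → Fin m → Ω) (R : ℕ → ℕ → Prop) (δ x b : Ω) : Prop :=
  ∃ x' ∈ D, ∃ b' ∈ D, δ ≤ x' ∧ δ ≤ b' ∧ ∃ K, K ≠ [] ∧ C.L δ b' = C.L δ b ++ K ∧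
    (∀ ξ ∈ C.L δ b, ∀ i, C.e ξ (a x' i) = C.e ξ (a x i)) ∧
    (∀ ξ ∈ C.L δ b, C.e ξ b' = C.e ξ b) ∧
    ∀ ξ ∈ K, ∀ i, R (C.e ξ (a x' i)) (C.e ξ b')

/-- The `δ` at which the extension property fails for some pair. -/
def Bad (D : Set Ω) {m : ℕ} (a : Ω → Fin m → Ω) (R : ℕ → ℕ → Prop) : Set Ω :=
  {δ | ∃ x ∈ D, ∃ b ∈ D, δ ≤ x ∧ δ ≤ b ∧ ¬ Ext C D a R δ x b}

/-- The `δ` at which reflection fails. -/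
def BadRefl (D : Set Ω) {m : ℕ} (a : Ω → Fin m → Ω) : Set Ω :=
  {δ | ∃ x ∈ D, δ ≤ x ∧ ∃ F : Finset Ω, (∀ ξ ∈ F, ξ < δ) ∧ ∃ η < δ,
    ¬ ∃ x' ∈ D, x' < δ ∧ (∀ i, η < a x' i ∧ a x' i < δ) ∧
      ∀ ξ ∈ F, ∀ i, C.e ξ (a x' i) = C.e ξ (a x i)}

theorem CSeq.e_agree {δ x : Ω} (h : δ ≤ x) : {ξ | ξ < δ ∧ C.e ξ x ≠ C.e ξ δ}.Finite := by
  rcases h.eq_or_lt with h | h
  · subst h
    simp
  · refine (C.e_coh h).subset ?_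
    rintro ξ ⟨h1, h2⟩
    exact ⟨h1, fun h3 => h2 h3.symm⟩

theorem countable_lists (P : Finset Ω) : {l : List Ω | ∀ x ∈ l, x ∈ P}.Countable := by
  have : {l : List Ω | ∀ x ∈ l, x ∈ P} ⊆ range (List.map (Subtype.val : P → Ω)) := by
    intro l hl
    refine ⟨l.pmap Subtype.mk hl, ?_⟩
    rw [List.map_pmap]
    simp
  exact (countable_range _).mono this

/-- Thinning out a stationary set of pairs. -/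
theorem thin {m : ℕ} (a : Ω → Fin m → Ω) (S : Set Ω) (hS : Stat S) (x b : Ω → Ω)
    (hx : ∀ δ ∈ S, δ ≤ x δ) (hb : ∀ δ ∈ S, δ ≤ b δ) (ha : ∀ δ ∈ S, ∀ i, δ ≤ a (x δ) i) :
    ∃ (T : Set Ω) (P : Finset Ω), Stat T ∧ T ⊆ S ∧ (∀ δ ∈ T, ⊥ < δ) ∧
      (∀ δ ∈ T, ∀ ξ ∈ P, ξ < δ) ∧ (∀ δ ∈ T, ∀ ξ ∈ C.L δ (b δ), ξ ∈ P) ∧
      (∀ δ ∈ T, ∀ ξ < δ, ξ ∉ P → (∀ i, C.e ξ (a (x δ) i) = C.e ξ δ) ∧ C.e ξ (b δ) = C.e ξ δ) ∧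
      ∀ δ ∈ T, ∀ δ' ∈ T, C.L δ (b δ) = C.L δ' (b δ') ∧
        (∀ ξ ∈ P, ∀ i, C.e ξ (a (x δ) i) = C.e ξ (a (x δ') i)) ∧
        ∀ ξ ∈ P, C.e ξ (b δ) = C.e ξ (b δ') := by
  classical
  have hS' : Stat {δ ∈ S | ⊥ < δ} := by
    intro f
    obtain ⟨δ, h1, h2, h3⟩ := hS f
    exact ⟨δ, ⟨h1, h2⟩, h2, h3⟩
  have h1 : ∀ δ, ∃ F : Finset Ω, δ ∈ S → ⊥ < δ → (∀ ξ ∈ F, ξ < δ) ∧
      (∀ ξ ∈ C.L δ (b δ), ξ ∈ F) ∧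
      ∀ ξ < δ, ξ ∉ F → (∀ i, C.e ξ (a (x δ) i) = C.e ξ δ) ∧ C.e ξ (b δ) = C.e ξ δ := by
    intro δ
    by_cases hδ : δ ∈ S
    · have hf : (⋃ i, {ξ | ξ < δ ∧ C.e ξ (a (x δ) i) ≠ C.e ξ δ}).Finite :=
        Set.finite_iUnion fun i => C.e_agree (ha δ hδ i)
      have hf' : {ξ | ξ < δ ∧ C.e ξ (b δ) ≠ C.e ξ δ}.Finite := C.e_agree (hb δ hδ)
      refine ⟨(C.L δ (b δ)).toFinset ∪ (hf.toFinset ∪ hf'.toFinset), fun _ h0 => ⟨?_, ?_, ?_⟩⟩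
      · intro ξ hξ
        simp only [Finset.mem_union, List.mem_toFinset, Set.Finite.mem_toFinset, mem_iUnion,
          mem_ofPred_eq] at hξ
        rcases hξ with h | ⟨i, h, _⟩ | ⟨h, _⟩
        · exact C.L_lt h0 h
        · exact h
        · exact h
      · intro ξ hξ
        simp only [Finset.mem_union, List.mem_toFinset]
        exact Or.inl hξ
      · intro ξ hξ hξF
        simp only [Finset.mem_union, List.mem_toFinset, Set.Finite.mem_toFinset, mem_iUnion,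
          mem_ofPred_eq, not_or, not_exists, not_and, not_not] at hξF
        exact ⟨fun i => hξF.2.1 i hξ, hξF.2.2 hξ⟩
    · exact ⟨∅, fun h => absurd h hδ⟩
  choose PP hPP using h1
  obtain ⟨P, hP⟩ := hS'.fiber_finset PP (fun δ hδ ξ hξ => (hPP δ hδ.1 hδ.2).1 ξ hξ)
  obtain ⟨l, hl⟩ := hP.fiber_of_countable (fun δ => C.L δ (b δ)) _ (countable_lists P) (by
    rintro δ ⟨⟨h1, h2⟩, h3⟩ ξ hξ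
    rw [← h3]
    exact (hPP δ h1 h2).2.1 ξ hξ)
  obtain ⟨v, hv⟩ := hl.fiber (fun δ (ξ : P) (i : Fin m) => C.e ξ (a (x δ) i))
  obtain ⟨u, hu⟩ := hv.fiber (fun δ (ξ : P) => C.e ξ (b δ))
  refine ⟨_, P, hu, ?_, ?_, ?_, ?_, ?_, ?_⟩
  · rintro δ ⟨⟨⟨⟨⟨h1, _⟩, _⟩, _⟩, _⟩, _⟩
    exact h1
  · rintro δ ⟨⟨⟨⟨⟨_, h1⟩, _⟩, _⟩, _⟩, _⟩
    exact h1
  · rintro δ ⟨⟨⟨⟨⟨h1, h2⟩, h3⟩, _⟩, _⟩, _⟩ ξ hξ
    rw [← h3] at hξ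
    exact (hPP δ h1 h2).1 ξ hξ
  · rintro δ ⟨⟨⟨⟨⟨h1, h2⟩, h3⟩, _⟩, _⟩, _⟩ ξ hξ
    rw [← h3]
    exact (hPP δ h1 h2).2.1 ξ hξ
  · rintro δ ⟨⟨⟨⟨⟨h1, h2⟩, h3⟩, _⟩, _⟩, _⟩ ξ hξ hξP
    rw [← h3] at hξP
    exact (hPP δ h1 h2).2.2 ξ hξ hξP
  · rintro δ ⟨⟨⟨_, h1⟩, h2⟩, h3⟩ δ' ⟨⟨⟨_, h1'⟩, h2'⟩, h3'⟩
    refine ⟨h1.trans h1'.symm, ?_, ?_⟩
    · intro ξ hξ i
      have := congrFun (congrFun (h2.trans h2'.symm) ⟨ξ, hξ⟩) i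
      exact this
    · intro ξ hξ
      have := congrFun (h3.trans h3'.symm) ⟨ξ, hξ⟩
      exact this

/-- Two close points of a thinned set. -/
theorem close_pair {m : ℕ} (a : Ω → Fin m → Ω) (x b : Ω → Ω) {T : Set Ω} {P : Finset Ω}
    (hT : Stat T) (hT0 : ∀ δ ∈ T, ⊥ < δ) (hb : ∀ δ ∈ T, δ ≤ b δ)
    (hP : ∀ δ ∈ T, ∀ ξ ∈ P, ξ < δ) (hL : ∀ δ ∈ T, ∀ ξ ∈ C.L δ (b δ), ξ ∈ P)
    (hc : ∀ δ ∈ T, ∀ δ' ∈ T, C.L δ (b δ) = C.L δ' (b δ')) (g : Ω) :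
    ∃ δ ∈ T, ∃ δ' ∈ T, δ < δ' ∧ g < δ ∧ C.L δ δ' ≠ [] ∧
      (∀ ξ ∈ C.L δ δ', g < ξ ∧ ξ < δ ∧ ξ ∉ P) ∧ C.L δ (b δ') = C.L δ (b δ) ++ C.L δ δ' := by
  obtain ⟨δ', ⟨hδ', _, hlim⟩, hgδ'⟩ := hT.limit.exists_gt g
  obtain ⟨ζ, hζT, hgζ, hζ⟩ := hlim g hgδ'
  obtain ⟨η, hη, hη'⟩ := C.L_large hζ
  obtain ⟨δ, hδT, hδ1, hδ2⟩ := hlim (max η ζ) (max_lt hη hζ)
  have hηδ : η < δ := lt_of_le_of_lt (le_max_left _ _) hδ1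
  have hζδ : ζ < δ := lt_of_le_of_lt (le_max_right _ _) hδ1
  have h1 : ∀ ξ ∈ C.L δ δ', ζ ≤ ξ := hη' δ hηδ hδ2
  refine ⟨δ, hδT, δ', hδ', hδ2, hgζ.trans hζδ, C.L_ne_nil hδ2, ?_, ?_⟩
  · intro ξ hξ
    refine ⟨lt_of_lt_of_le hgζ (h1 ξ hξ), C.L_lt (hT0 δ hδT) hξ, ?_⟩
    intro hξP
    exact absurd (hP ζ hζT ξ hξP) (not_lt.2 (h1 ξ hξ))
  · rw [hc δ hδT δ' hδ']
    refine C.L_append (hT0 δ hδT) hδ2 (hb δ' hδ') ?_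
    intro y hy z hz
    exact lt_of_lt_of_le (hP ζ hζT y (hL δ' hδ' y hy)) (h1 z hz)

theorem not_stat_bad_eq (D : Set Ω) {m : ℕ} (a : Ω → Fin m → Ω)
    (ha : ∀ x ∈ D, ∀ i, x ≤ a x i) : ¬ Stat (Bad C D a (fun p q => p = q)) := by
  intro hS
  have h0 : ∀ δ, ∃ x b : Ω, δ ∈ Bad C D a (fun p q => p = q) →
      x ∈ D ∧ b ∈ D ∧ δ ≤ x ∧ δ ≤ b ∧ ¬ Ext C D a (fun p q => p = q) δ x b := by
    intro δ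
    by_cases hδ : δ ∈ Bad C D a (fun p q => p = q)
    · obtain ⟨x, hx, b, hb, h1, h2, h3⟩ := hδ
      exact ⟨x, b, fun _ => ⟨hx, hb, h1, h2, h3⟩⟩
    · exact ⟨⊥, ⊥, fun h => absurd h hδ⟩
  choose x b hxb using h0
  obtain ⟨T, P, hT, hTS, hT0, hP, hL, hout, hconst⟩ := thin C a _ hS x b
    (fun δ hδ => (hxb δ hδ).2.2.1) (fun δ hδ => (hxb δ hδ).2.2.2.1)
    (fun δ hδ i => (hxb δ hδ).2.2.1.trans (ha _ (hxb δ hδ).1 i))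
  obtain ⟨δ, hδ, δ', hδ', hlt, _, hne, hK, happ⟩ := close_pair C a x b hT hT0
    (fun δ hδ => (hxb δ (hTS hδ)).2.2.2.1) hP hL (fun δ hδ δ' hδ' => (hconst δ hδ δ' hδ').1) ⊥
  refine (hxb δ (hTS hδ)).2.2.2.2 ⟨x δ', (hxb δ' (hTS hδ')).1, b δ', (hxb δ' (hTS hδ')).2.1,
    hlt.le.trans (hxb δ' (hTS hδ')).2.2.1, hlt.le.trans (hxb δ' (hTS hδ')).2.2.2.1,
    C.L δ δ', hne, happ, ?_, ?_, ?_⟩
  · intro ξ hξ i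
    exact (hconst δ' hδ' δ hδ).2.1 ξ (hL δ hδ ξ hξ) i
  · intro ξ hξ
    exact (hconst δ' hδ' δ hδ).2.2 ξ (hL δ hδ ξ hξ)
  · intro ξ hξ i
    obtain ⟨_, h2, h3⟩ := hK ξ hξ
    obtain ⟨h4, h5⟩ := hout δ' hδ' ξ (h2.trans hlt) h3
    show C.e ξ (a (x δ') i) = C.e ξ (b δ')
    rw [h4 i, h5]

theorem not_stat_bad_gt (D : Set Ω) {m : ℕ} (a : Ω → Fin m → Ω)
    (ha : ∀ x ∈ D, ∀ i, x ≤ a x i) : ¬ Stat (Bad C D a (fun p q => q < p)) := by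
  classical
  intro hS
  have h0 : ∀ δ, ∃ x b : Ω, δ ∈ Bad C D a (fun p q => q < p) →
      x ∈ D ∧ b ∈ D ∧ δ ≤ x ∧ δ ≤ b ∧ ¬ Ext C D a (fun p q => q < p) δ x b := by
    intro δ
    by_cases hδ : δ ∈ Bad C D a (fun p q => q < p)
    · obtain ⟨x, hx, b, hb, h1, h2, h3⟩ := hδ
      exact ⟨x, b, fun _ => ⟨hx, hb, h1, h2, h3⟩⟩
    · exact ⟨⊥, ⊥, fun h => absurd h hδ⟩
  choose x b hxb using h0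
  obtain ⟨T, P, hT, hTS, hT0, hP, hL, hout, hconst⟩ := thin C a _ hS x b
    (fun δ hδ => (hxb δ hδ).2.2.1) (fun δ hδ => (hxb δ hδ).2.2.2.1)
    (fun δ hδ i => (hxb δ hδ).2.2.1.trans (ha _ (hxb δ hδ).1 i))
  -- the bound at `g`
  have h1 : ∀ g : Ω, ∃ (δ : Ω) (n : ℕ), g < δ ∧ ∀ δs ∈ T, δ ≤ δs →
      ∃ ξ, g < ξ ∧ ξ < δ ∧ ∃ i, C.e ξ (a (x δs) i) ≤ n := by
    intro g
    obtain ⟨δ, hδ, δ', hδ', hlt, hgδ, hne, hK, happ⟩ := close_pair C a x b hT hT0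
      (fun δ hδ => (hxb δ (hTS hδ)).2.2.2.1) hP hL (fun δ hδ δ' hδ' => (hconst δ hδ δ' hδ').1) g
    refine ⟨δ, (C.L δ δ').toFinset.sup (fun ξ => C.e ξ (b δ')), hgδ, ?_⟩
    intro δs hδs hle
    by_contra hcon
    push Not at hcon
    refine (hxb δ (hTS hδ)).2.2.2.2 ⟨x δs, (hxb δs (hTS hδs)).1, b δ',
      (hxb δ' (hTS hδ')).2.1, hle.trans (hxb δs (hTS hδs)).2.2.1,
      hlt.le.trans (hxb δ' (hTS hδ')).2.2.2.1, C.L δ δ', hne, happ, ?_, ?_, ?_⟩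
    · intro ξ hξ i
      exact (hconst δs hδs δ hδ).2.1 ξ (hL δ hδ ξ hξ) i
    · intro ξ hξ
      exact (hconst δ' hδ' δ hδ).2.2 ξ (hL δ hδ ξ hξ)
    · intro ξ hξ i
      obtain ⟨h2, h3, _⟩ := hK ξ hξ
      have h4 := hcon ξ h2 h3 i
      refine lt_of_le_of_lt ?_ h4
      exact Finset.le_sup (f := fun ξ => C.e ξ (b δ')) (List.mem_toFinset.2 hξ)
  choose dd nn hdd hnn using h1
  -- some bound is taken cofinally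
  have h2 : ∃ n, ∀ g, ∃ g', g ≤ g' ∧ nn g' = n := by
    by_contra hcon
    push Not at hcon
    choose gg hgg using hcon
    obtain ⟨β, hβ⟩ := exists_gt_of_countable (countable_range gg)
    exact hgg (nn β) β (hβ _ (mem_range_self _)).le rfl
  obtain ⟨n, hn⟩ := h2
  choose gp hgp1 hgp2 using hn
  obtain ⟨δs, ⟨hδs, hcl⟩, h0δs, -⟩ := (hT.inter_closure (fun g => dd (gp g))) id
  have hfin : {ξ | ξ < δs ∧ ∃ i, C.e ξ (a (x δs) i) ≤ n}.Finite := by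
    have : {ξ | ξ < δs ∧ ∃ i, C.e ξ (a (x δs) i) ≤ n} ⊆
        ⋃ i, {ξ | ξ < a (x δs) i ∧ C.e ξ (a (x δs) i) ≤ n} := by
      rintro ξ ⟨h1, i, h2⟩
      refine mem_iUnion.2 ⟨i, ?_, h2⟩
      exact lt_of_lt_of_le h1 ((hxb δs (hTS hδs)).2.2.1.trans (ha _ (hxb δs (hTS hδs)).1 i))
    exact (Set.finite_iUnion fun i => C.e_finite (a (x δs) i) n).subset this
  have hun : ∀ g < δs, ∃ ξ, g < ξ ∧ ξ ∈ {ξ | ξ < δs ∧ ∃ i, C.e ξ (a (x δs) i) ≤ n} := by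
    intro g hg
    have h1 : dd (gp g) < δs := hcl g hg
    obtain ⟨ξ, h2, h3, i, h4⟩ := hnn (gp g) δs hδs h1.le
    refine ⟨ξ, lt_of_le_of_lt (hgp1 g) h2, h3.trans h1, i, ?_⟩
    rw [hgp2 g] at h4
    exact h4
  obtain ⟨ξ0, _, hξ0⟩ := hun ⊥ h0δs
  obtain ⟨M, hM, hM'⟩ := hfin.exists_maximal ⟨ξ0, hξ0⟩
  obtain ⟨ξ, h1, h2⟩ := hun M hM.1
  exact absurd (hM' h2 h1.le) (not_le.2 h1)

theorem not_stat_badRefl (D : Set Ω) {m : ℕ} (a : Ω → Fin m → Ω)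
    (ha : ∀ x ∈ D, ∀ i, x ≤ a x i) : ¬ Stat (BadRefl C D a) := by
  classical
  intro hS
  have h0 : ∀ δ, ∃ (x : Ω) (F : Finset Ω) (η : Ω), δ ∈ BadRefl C D a → x ∈ D ∧ δ ≤ x ∧
      (∀ ξ ∈ F, ξ < δ) ∧ η < δ ∧ ¬ ∃ x' ∈ D, x' < δ ∧ (∀ i, η < a x' i ∧ a x' i < δ) ∧
      ∀ ξ ∈ F, ∀ i, C.e ξ (a x' i) = C.e ξ (a x i) := by
    intro δ
    by_cases hδ : δ ∈ BadRefl C D a
    · obtain ⟨x, hx, h1, F, hF, η, hη, h2⟩ := hδ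
      exact ⟨x, F, η, fun _ => ⟨hx, h1, hF, hη, h2⟩⟩
    · exact ⟨⊥, ∅, ⊥, fun h => absurd h hδ⟩
  choose x F η hx using h0
  obtain ⟨F0, hF0⟩ := hS.fiber_finset F (fun δ hδ => (hx δ hδ).2.2.1)
  obtain ⟨η0, hη0⟩ := hF0.fodor η (fun δ hδ => (hx δ hδ.1).2.2.2.1)
  obtain ⟨v, hv⟩ := hη0.fiber (fun δ (ξ : F0) (i : Fin m) => C.e ξ (a (x δ) i))
  obtain ⟨δ1, hδ1, -⟩ := hv id
  obtain ⟨β, hβ⟩ := exists_gt_of_countable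
    ((countable_range (a (x δ1))).union (countable_singleton (x δ1)))
  obtain ⟨δ2, hδ2, hβδ2⟩ := hv.exists_gt β
  obtain ⟨⟨⟨hb1, hF1⟩, hη1⟩, hv1⟩ := hδ1
  obtain ⟨⟨⟨hb2, hF2⟩, hη2⟩, hv2⟩ := hδ2
  refine (hx δ2 hb2).2.2.2.2 ⟨x δ1, (hx δ1 hb1).1, ?_, ?_, ?_⟩
  · exact (hβ _ (Or.inr rfl)).trans hβδ2
  · intro i
    refine ⟨?_, (hβ _ (Or.inl (mem_range_self i))).trans hβδ2⟩
    rw [hη2, ← hη1]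
    exact lt_of_lt_of_le (lt_of_lt_of_le (hx δ1 hb1).2.2.2.1 (hx δ1 hb1).2.1)
      (ha _ (hx δ1 hb1).1 i)
  · intro ξ hξ i
    rw [hF2] at hξ
    exact congrFun (congrFun (hv1.trans hv2.symm) ⟨ξ, hξ⟩) i

end Pool.Agent.H14.Fre
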