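import Pool.Agent.H14.Fre.OM

open Set

namespace Pool.Agent.H14.Fre

theorem Stat.fiber_of_countable {Ω : Type} [LinearOrder Ω] [OrderBot Ω] [Om1 Ω] {τ : Type}
    {S : Set Ω} (h : Stat S) (f : Ω → τ) (T : Set τ) (hT : T.Countable) (hf : ∀ δ ∈ S, f δ ∈ T) :
    ∃ t, Stat {δ ∈ S | f δ = t} := by
  classical
  have : Countable T := hT
  obtain ⟨t, ht⟩ := h.fiber (fun δ => if h : f δ ∈ T then some (⟨f δ, h⟩ : T) else none)
  rcases t with _ | t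
  · obtain ⟨δ, ⟨hδ, hδ'⟩, _⟩ := ht id
    rw [dif_pos (hf δ hδ)] at hδ'
    exact absurd hδ' (by simp)
  · refine ⟨t, ht.mono ?_⟩
    rintro δ ⟨hδ, hδ'⟩
    refine ⟨hδ, ?_⟩
    rw [dif_pos (hf δ hδ)] at hδ'
    have := Option.some.inj hδ'
    exact congrArg Subtype.val this

end Pool.Agent.H14.Fre
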