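import Pool.Agent.H14.Fre.Defs

/-!
# Module NRM: the norm and the homomorphisms
-/

open Set Filter Topology

namespace Pool.Agent.H14.Fre

section Group

variable {Ω : Type}

theorem nrm_zero : nrm (0 : Gr Ω) = 0 := by
  simp [nrm]

theorem nrm_neg (g : Gr Ω) : nrm (-g) = nrm g := by
  unfold nrm
  rw [Finsupp.sum_neg_index (by intro i; simp)]
  apply Finsupp.sum_congr
  intro i _
  simp

/-- the norm as a sum over any large set -/
theorem nrm_eq_sum (g : Gr Ω) (s : Finset (Idx Ω)) (hs : g.support ⊆ s) :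
    nrm g = ∑ i ∈ s, (1 / 2 : ℝ) ^ i.1 * |((g i : ℤ) : ℝ)| := by
  unfold nrm
  rw [Finsupp.sum_of_support_subset g hs]
  intro i _
  simp

theorem nrm_add_le (g h : Gr Ω) : nrm (g + h) ≤ nrm g + nrm h := by
  classical
  have h1 : (g + h).support ⊆ g.support ∪ h.support := Finsupp.support_add
  rw [nrm_eq_sum (g + h) _ h1, nrm_eq_sum g _ Finset.subset_union_left,
    nrm_eq_sum h _ Finset.subset_union_right, ← Finset.sum_add_distrib]
  apply Finset.sum_le_sum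
  intro i _
  rw [← mul_add]
  apply mul_le_mul_of_nonneg_left _ (by positivity)
  rw [Finsupp.add_apply]
  push_cast
  exact abs_add_le _ _

theorem nrm_nonneg (g : Gr Ω) : 0 ≤ nrm g := by
  unfold nrm Finsupp.sum
  apply Finset.sum_nonneg
  intro i _
  positivity

theorem eq_zero_of_nrm {g : Gr Ω} (h : nrm g = 0) : g = 0 := by
  unfold nrm Finsupp.sum at h
  rw [Finset.sum_eq_zero_iff_of_nonneg (fun i _ => by positivity)] at h
  ext i
  by_contra hi
  have h1 : i ∈ g.support := Finsupp.mem_support_iff.2 hi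
  have h2 := h i h1
  have h3 : (0 : ℝ) < (1 / 2) ^ i.1 := by positivity
  rcases mul_eq_zero.1 h2 with h4 | h4
  · linarith
  · rw [abs_eq_zero] at h4
    exact hi (by exact_mod_cast h4)

theorem nrm_single (i : Idx Ω) (z : ℤ) : nrm (Finsupp.single i z) = (1 / 2 : ℝ) ^ i.1 * |(z : ℝ)| := by
  unfold nrm
  rw [Finsupp.sum_single_index (by simp)]

/-- splitting the support: the norm of each part is at most the norm -/
theorem nrm_filter_le (g : Gr Ω) (p : Idx Ω → Prop) [DecidablePred p] :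
    nrm (g.filter p) ≤ nrm g := by
  have h1 : (g.filter p).support ⊆ g.support := by
    rw [Finsupp.support_filter]
    exact Finset.filter_subset _ _
  rw [nrm_eq_sum _ _ h1, nrm_eq_sum g _ (Finset.Subset.refl _)]
  apply Finset.sum_le_sum
  intro i _
  apply mul_le_mul_of_nonneg_left _ (by positivity)
  by_cases hp : p i
  · rw [Finsupp.filter_apply_pos p g hp]
  · rw [Finsupp.filter_apply_neg p g hp]
    simp

variable [LinearOrder Ω]

theorem w_single (o : Ω → Ω → ℕ) (δ : Ω) (i : Idx Ω) (z : ℤ) :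
    w o δ (Finsupp.single i z) = z * coef o δ i := by
  unfold w
  rw [Finsupp.liftAddHom_apply_single]
  rfl

theorem w_apply (o : Ω → Ω → ℕ) (δ : Ω) (g : Gr Ω) :
    w o δ g = g.sum fun i z => z * coef o δ i := by
  unfold w
  rw [Finsupp.liftAddHom_apply]
  rfl

/-- if all ordinals in the support are `≥ δ` then `w δ g = 0` -/
theorem w_eq_zero (o : Ω → Ω → ℕ) (δ : Ω) (g : Gr Ω) (h : ∀ i ∈ g.support, δ ≤ i.2.1) :
    w o δ g = 0 := by
  rw [w_apply]
  unfold Finsupp.sum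
  apply Finset.sum_eq_zero
  intro i hi
  unfold coef
  beta_reduce
  rw [if_neg (not_lt.2 (h i hi)), mul_zero]

/-- bounded coherence: `|w γ g - w δ g| ≤ N |g|` for `g` supported below `δ ≤ γ` -/
theorem w_coherent (o : Ω → Ω → ℕ) {δ γ : Ω} (hδγ : δ ≤ γ) (N : ℕ)
    (hN : ∀ ξ < δ, o ξ γ ≤ o ξ δ + N ∧ o ξ δ ≤ o ξ γ + N) (g : Gr Ω)
    (hg : ∀ i ∈ g.support, i.2.1 < δ) : |w o γ g - w o δ g| ≤ N * nrm g := by
  rw [w_apply, w_apply]
  unfold nrm Finsupp.sum
  rw [← Finset.sum_sub_distrib, Finset.mul_sum]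
  refine (Finset.abs_sum_le_sum_abs _ _).trans ?_
  apply Finset.sum_le_sum
  intro i hi
  have h1 := hg i hi
  have h2 := h1.trans_le hδγ
  unfold coef
  beta_reduce
  rw [if_pos h1, if_pos h2, ← mul_sub, abs_mul]
  have h3 : |Real.cos ((1 / 2 : ℝ) ^ i.1 * o i.2.1 γ + phi i.2.2) -
      Real.cos ((1 / 2 : ℝ) ^ i.1 * o i.2.1 δ + phi i.2.2)| ≤ (1 / 2 : ℝ) ^ i.1 * N := by
    have h4 : |Real.cos ((1 / 2 : ℝ) ^ i.1 * o i.2.1 γ + phi i.2.2) -
      Real.cos ((1 / 2 : ℝ) ^ i.1 * o i.2.1 δ + phi i.2.2)| ≤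
        |((1 / 2 : ℝ) ^ i.1 * o i.2.1 γ + phi i.2.2) -
          ((1 / 2 : ℝ) ^ i.1 * o i.2.1 δ + phi i.2.2)| := by
      have h5 := Real.lipschitzWith_cos.dist_le_mul
        ((1 / 2 : ℝ) ^ i.1 * o i.2.1 γ + phi i.2.2) ((1 / 2 : ℝ) ^ i.1 * o i.2.1 δ + phi i.2.2)
      simpa [Real.dist_eq] using h5
    refine h4.trans ?_
    have h6 : ((1 / 2 : ℝ) ^ i.1 * o i.2.1 γ + phi i.2.2) -
          ((1 / 2 : ℝ) ^ i.1 * o i.2.1 δ + phi i.2.2) =
          (1 / 2 : ℝ) ^ i.1 * ((o i.2.1 γ : ℝ) - o i.2.1 δ) := by ring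
    rw [h6, abs_mul, abs_of_nonneg (by positivity : (0 : ℝ) ≤ (1 / 2) ^ i.1)]
    apply mul_le_mul_of_nonneg_left _ (by positivity)
    obtain ⟨h7, h8⟩ := hN i.2.1 h1
    have h7' : (o i.2.1 γ : ℝ) ≤ o i.2.1 δ + N := by exact_mod_cast h7
    have h8' : (o i.2.1 δ : ℝ) ≤ o i.2.1 γ + N := by exact_mod_cast h8
    rw [abs_le]
    constructor <;> linarith
  calc |((g i : ℤ) : ℝ)| * _ ≤ |((g i : ℤ) : ℝ)| * ((1 / 2 : ℝ) ^ i.1 * N) := by gcongr
    _ = _ := by ring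

end Group

end Pool.Agent.H14.Fre
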