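import Pool.Agent.H14.Fre.Defs

/-!
# Module TRIG: the intermediate value argument
-/

open Set Filter Topology

namespace Pool.Agent.H14.Fre

theorem cos_sum_identity (w θ : ℝ) (k : ℕ) :
    2 * Real.sin (w / 2) * ∑ j ∈ Finset.range k, Real.cos (w * j + θ) =
      Real.sin (θ + (k - 1 / 2) * w) - Real.sin (θ - w / 2) := by
  induction k with
  | zero =>
    simp only [Finset.range_zero, Finset.sum_empty, mul_zero, Nat.cast_zero]
    rw [show θ + (0 - 1 / 2) * w = θ - w / 2 by ring, sub_self]
  | succ k ih =>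
    rw [Finset.sum_range_succ, mul_add, ih]
    have h1 : θ + ((k + 1 : ℕ) - 1 / 2 : ℝ) * w = (w * k + θ) + w / 2 := by
      push_cast
      ring
    have h2 : θ + (k - 1 / 2 : ℝ) * w = (w * k + θ) - w / 2 := by ring
    rw [h1, h2, Real.sin_add, Real.sin_sub]
    ring

theorem abs_cos_sum_le (w θ : ℝ) (hw : 0 < w) (hw1 : w ≤ 1) (k : ℕ) :
    |∑ j ∈ Finset.range k, Real.cos (w * j + θ)| ≤ 1 / Real.sin (w / 2) := by
  have hs : 0 < Real.sin (w / 2) := by
    apply Real.sin_pos_of_pos_of_lt_pi (by linarith)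
    have := Real.pi_gt_three
    linarith
  have h := cos_sum_identity w θ k
  have h1 := Real.abs_sin_le_one (θ + (k - 1 / 2) * w)
  have h2 := Real.abs_sin_le_one (θ - w / 2)
  have h3 : |2 * Real.sin (w / 2) * ∑ j ∈ Finset.range k, Real.cos (w * j + θ)| ≤ 2 := by
    rw [h]
    refine (abs_sub _ _).trans ?_
    linarith
  rw [abs_mul, abs_of_pos (by positivity)] at h3
  rw [le_div_iff₀ hs]
  nlinarith

theorem trig_small {m : ℕ} (n : Fin m → ℕ) (r : Fin m → ℤ) (ε : ℝ) (hε : 0 < ε)
    (hr : ∑ i, (1 / 2 : ℝ) ^ n i * |(r i : ℝ)| < ε) :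
    ∃ k : ℕ, ∀ θ : Fin m → ℝ, ∃ j < k,
      |∑ i, (r i : ℝ) * Real.cos ((1 / 2 : ℝ) ^ n i * j + θ i)| < ε := by
  set B : ℝ := ∑ i, |(r i : ℝ)| * (1 / Real.sin ((1 / 2 : ℝ) ^ n i / 2)) with hB
  obtain ⟨k, hk⟩ := exists_nat_gt (B / ε)
  have hB0 : 0 ≤ B := by
    refine Finset.sum_nonneg fun i _ => mul_nonneg (abs_nonneg _) ?_
    have h1 : (0 : ℝ) < (1 / 2 : ℝ) ^ n i := by positivity
    have h2 : (1 / 2 : ℝ) ^ n i ≤ 1 := pow_le_one₀ (by norm_num) (by norm_num)
    have : 0 < Real.sin ((1 / 2 : ℝ) ^ n i / 2) := by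
      apply Real.sin_pos_of_pos_of_lt_pi (by linarith)
      have := Real.pi_gt_three
      linarith
    positivity
  refine ⟨k, fun θ => ?_⟩
  by_contra hcon
  push Not at hcon
  set f : ℕ → ℝ := fun j => ∑ i, (r i : ℝ) * Real.cos ((1 / 2 : ℝ) ^ n i * j + θ i) with hf
  have hstep : ∀ j, |f (j + 1) - f j| < ε := by
    intro j
    refine lt_of_le_of_lt ?_ hr
    simp only [hf]
    rw [← Finset.sum_sub_distrib]
    refine (Finset.abs_sum_le_sum_abs _ _).trans ?_
    refine Finset.sum_le_sum fun i _ => ?_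
    rw [← mul_sub, abs_mul, mul_comm]
    refine mul_le_mul_of_nonneg_right ?_ (abs_nonneg _)
    refine (Real.abs_cos_sub_cos_le _ _).trans ?_
    have h1 : ((1 / 2 : ℝ) ^ n i * ((j + 1 : ℕ) : ℝ) + θ i - ((1 / 2 : ℝ) ^ n i * j + θ i))
        = (1 / 2 : ℝ) ^ n i := by
      push_cast
      ring
    rw [h1, abs_of_nonneg (by positivity)]
  have hk0 : 0 < k := by
    rcases Nat.eq_zero_or_pos k with h | h
    · subst h
      simp only [Nat.cast_zero] at hk
      exact absurd hk (not_lt.2 (by positivity))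
    · exact h
  have hsum : |∑ j ∈ Finset.range k, f j| ≤ B := by
    simp only [hf]
    rw [Finset.sum_comm]
    refine (Finset.abs_sum_le_sum_abs _ _).trans ?_
    refine Finset.sum_le_sum fun i _ => ?_
    rw [← Finset.mul_sum, abs_mul]
    refine mul_le_mul_of_nonneg_left ?_ (abs_nonneg _)
    exact abs_cos_sum_le _ _ (by positivity) (pow_le_one₀ (by norm_num) (by norm_num)) k
  have hkε : B < k * ε := by
    rwa [div_lt_iff₀ hε] at hk
  rcases le_total 0 (f 0) with h0 | h0
  · have hpos : ∀ j, j < k → ε ≤ f j := by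
      intro j
      induction j with
      | zero =>
        intro hj
        have := hcon 0 hj
        rwa [abs_of_nonneg h0] at this
      | succ j ih =>
        intro hj
        have h1 := ih (by omega)
        have h2 := abs_lt.1 (hstep j)
        have h3 := hcon (j + 1) hj
        have h4 : 0 ≤ f (j + 1) := by linarith [h2.1]
        rwa [abs_of_nonneg h4] at h3
    have h1 : (k : ℝ) * ε ≤ ∑ j ∈ Finset.range k, f j := by
      have := Finset.card_nsmul_le_sum (Finset.range k) f ε
        (fun j hj => hpos j (Finset.mem_range.1 hj))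
      rwa [Finset.card_range, nsmul_eq_mul] at this
    have h2 := le_abs_self (∑ j ∈ Finset.range k, f j)
    linarith
  · have hneg : ∀ j, j < k → f j ≤ -ε := by
      intro j
      induction j with
      | zero =>
        intro hj
        have := hcon 0 hj
        rw [abs_of_nonpos h0] at this
        linarith
      | succ j ih =>
        intro hj
        have h1 := ih (by omega)
        have h2 := abs_lt.1 (hstep j)
        have h3 := hcon (j + 1) hj
        have h4 : f (j + 1) ≤ 0 := by linarith [h2.2]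
        rw [abs_of_nonpos h4] at h3
        linarith
    have h1 : ∑ j ∈ Finset.range k, f j ≤ (k : ℝ) * (-ε) := by
      have := Finset.sum_le_card_nsmul (Finset.range k) f (-ε)
        (fun j hj => hneg j (Finset.mem_range.1 hj))
      rwa [Finset.card_range, nsmul_eq_mul] at this
    have h2 := neg_abs_le (∑ j ∈ Finset.range k, f j)
    linarith

end Pool.Agent.H14.Fre
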