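import Pool.Agent.H14.Fre.FB
import Pool.Agent.H14.Fre.NRM
import Pool.Agent.H14.Fre.TRIG

open Set Filter Topology

namespace Pool.Agent.H14.Fre

section FRE

variable {Ω : Type}

theorem countable_supported (Q : Finset Ω) :
    {g : Gr Ω | ∀ i ∈ g.support, i.2.1 ∈ Q}.Countable := by
  set s : Set (Idx Ω) := {i | i.2.1 ∈ Q} with hs
  have hsc : s.Countable := by
    have : s ⊆ range (fun p : ℕ × Q × Bool => ((p.1, (p.2.1 : Ω), p.2.2) : Idx Ω)) := by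
      rintro ⟨n, ξ, b⟩ h
      exact ⟨(n, ⟨ξ, h⟩, b), rfl⟩
    exact (countable_range _).mono this
  haveI : Countable s := hsc
  have e := Finsupp.restrictSupportEquiv s ℤ
  haveI : Countable {f : Gr Ω // (f.support : Set (Idx Ω)) ⊆ s} := e.countable_iff.2 inferInstance
  have : {g : Gr Ω | ∀ i ∈ g.support, i.2.1 ∈ Q} = {f : Gr Ω | (f.support : Set (Idx Ω)) ⊆ s} := by
    ext g
    simp only [mem_ofPred_eq]
    constructor
    · intro h i hi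
      exact h i hi
    · intro h i hi
      exact h hi
  rw [this]
  exact Set.countable_coe_iff.1 ‹_›

theorem exists_pattern (g : Gr Ω) : ∃ (m : ℕ) (n : Fin m → ℕ) (b : Fin m → Bool)
    (r : Fin m → ℤ) (a : Fin m → Ω), g = ∑ i, Finsupp.single (n i, a i, b i) (r i) ∧
      ∑ i, (1 / 2 : ℝ) ^ n i * |(r i : ℝ)| = nrm g ∧ ∀ i, (n i, a i, b i) ∈ g.support := by
  classical
  let e := g.support.equivFin
  refine ⟨g.support.card, fun i => (e.symm i : Idx Ω).1, fun i => (e.symm i : Idx Ω).2.2,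
    fun i => g (e.symm i), fun i => (e.symm i : Idx Ω).2.1, ?_, ?_, ?_⟩
  · have h1 : g = ∑ i ∈ g.support, Finsupp.single i (g i) := (Finsupp.sum_single g).symm
    have h2 : ∑ i : Fin g.support.card, Finsupp.single (e.symm i : Idx Ω) (g (e.symm i))
        = ∑ i ∈ g.support, Finsupp.single i (g i) := by
      rw [e.symm.sum_comp (fun i : g.support => Finsupp.single (i : Idx Ω) (g i))]
      exact Finset.sum_coe_sort g.support (fun i => Finsupp.single i (g i))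
    conv_lhs => rw [h1]
    rw [← h2]
  · unfold nrm Finsupp.sum
    rw [e.symm.sum_comp (fun i : g.support => (1 / 2 : ℝ) ^ (i : Idx Ω).1 * |((g i : ℤ) : ℝ)|)]
    exact Finset.sum_coe_sort g.support (fun i => (1 / 2 : ℝ) ^ i.1 * |((g i : ℤ) : ℝ)|)
  · intro i
    exact (e.symm i).2

theorem prop_of_mem_filter {p : Idx Ω → Prop} [DecidablePred p] {g : Gr Ω} {i : Idx Ω}
    (hi : i ∈ (g.filter p).support) : p i := by
  rw [Finsupp.support_filter] at hi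
  exact (Finset.mem_filter.1 hi).2

variable [LinearOrder Ω] [OrderBot Ω] [Om1 Ω]

theorem step_one (P : Phase Ω) (A : Set (Gr Ω)) (δ : Ω) (ε : ℝ) (hε : 0 < ε) (E : Finset Ω)
    (h : ∀ g ∈ A, (∀ i ∈ g.support, i.2.1 < δ) → nrm g < ε → ∃ γ ∈ E, ε ≤ |w P.o γ g|) :
    ∃ (k : ℕ) (F : Finset Ω), (∀ x ∈ F, x < δ) ∧ ∀ g ∈ A, (∀ i ∈ g.support, i.2.1 < δ) →
      nrm g < 1 / ((k : ℝ) + 1) → (∀ α ∈ F, |w P.o α g| < 1 / ((k : ℝ) + 1)) →
      1 / ((k : ℝ) + 1) ≤ |w P.o δ g| := by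
  classical
  have hN : ∀ γ, ∃ N : ℕ, δ < γ → ∀ ξ < δ, P.o ξ γ ≤ P.o ξ δ + N ∧ P.o ξ δ ≤ P.o ξ γ + N := by
    intro γ
    by_cases hγ : δ < γ
    · obtain ⟨N, hN⟩ := P.bdd δ γ hγ
      exact ⟨N, fun _ => hN⟩
    · exact ⟨0, fun h => absurd h hγ⟩
  choose NN hNN using hN
  set N := E.sup NN with hNdef
  have hpos : 0 < ε / (2 * ((N : ℝ) + 1)) := by positivity
  obtain ⟨k, hk⟩ := exists_nat_one_div_lt hpos
  refine ⟨k, E.filter (· < δ), fun x hx => (Finset.mem_filter.1 hx).2, ?_⟩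
  intro g hg hsupp hnrm hF
  have hk1 : 1 / ((k : ℝ) + 1) < ε / 2 := by
    refine lt_of_lt_of_le hk ?_
    apply div_le_div_of_nonneg_left hε.le (by norm_num)
    have : (0 : ℝ) ≤ N := Nat.cast_nonneg _
    linarith
  have hk2 : (N : ℝ) * (1 / ((k : ℝ) + 1)) ≤ ε / 2 := by
    have h1 : (N : ℝ) * (1 / ((k : ℝ) + 1)) ≤ ((N : ℝ) + 1) * (ε / (2 * ((N : ℝ) + 1))) := by
      apply mul_le_mul (by linarith) hk.le (by positivity) (by positivity)
    have h2 : ((N : ℝ) + 1) * (ε / (2 * ((N : ℝ) + 1))) = ε / 2 := by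
      have : ((N : ℝ) + 1) ≠ 0 := by positivity
      field_simp
    linarith
  obtain ⟨γ, hγE, hγ⟩ := h g hg hsupp (by linarith)
  rcases lt_trichotomy γ δ with h1 | h1 | h1
  · have := hF γ (Finset.mem_filter.2 ⟨hγE, h1⟩)
    linarith
  · subst h1
    linarith
  · have h2 : |w P.o γ g - w P.o δ g| ≤ (NN γ : ℝ) * nrm g :=
      w_coherent P.o h1.le (NN γ) (hNN γ h1) g hsupp
    have h3 : (NN γ : ℝ) ≤ N := by exact_mod_cast Finset.le_sup hγE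
    have h4 : (NN γ : ℝ) * nrm g ≤ ε / 2 := by
      refine le_trans ?_ hk2
      apply mul_le_mul h3 hnrm.le (nrm_nonneg g) (Nat.cast_nonneg _)
    have h5 : |w P.o γ g| ≤ |w P.o γ g - w P.o δ g| + |w P.o δ g| := by
      have := abs_add_le (w P.o γ g - w P.o δ g) (w P.o δ g)
      simpa using this
    linarith

theorem Stat.not_countable {S : Set Ω} (h : Stat S) : ¬ S.Countable := by
  intro hc
  obtain ⟨β, hβ⟩ := exists_gt_of_countable hc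
  obtain ⟨δ, hδ, hδ'⟩ := h.exists_gt β
  exact absurd (hβ δ hδ) (not_lt.2 hδ'.le)

theorem frechet_core (P : Phase Ω) (A : Set (Gr Ω))
    (hA : ∀ ε > 0, ∀ E : Finset Ω, ∃ g ∈ A, nrm g < ε ∧ ∀ δ ∈ E, |w P.o δ g| < ε) :
    ∃ δ : Ω, ∀ ε > 0, ∀ E : Finset Ω, ∃ g ∈ A, (∀ i ∈ g.support, i.2.1 < δ) ∧
      nrm g < ε ∧ ∀ γ ∈ E, |w P.o γ g| < ε := by
  classical
  by_contra hcon
  push Not at hcon
  have h1 : ∀ δ, ∃ (k : ℕ) (F : Finset Ω), (∀ x ∈ F, x < δ) ∧ ∀ g ∈ A,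
      (∀ i ∈ g.support, i.2.1 < δ) → nrm g < 1 / ((k : ℝ) + 1) →
      (∀ α ∈ F, |w P.o α g| < 1 / ((k : ℝ) + 1)) → 1 / ((k : ℝ) + 1) ≤ |w P.o δ g| := by
    intro δ
    obtain ⟨ε, hε, E, hE⟩ := hcon δ
    exact step_one P A δ ε hε E (fun g hg h1 h2 => hE g hg h1 h2)
  choose kk FF hFF hprop using h1
  obtain ⟨F, hF⟩ := (stat_univ (Ω := Ω)).fiber_finset FF (fun δ _ x hx => hFF δ x hx)
  obtain ⟨k, hk⟩ := hF.fiber kk
  set ε : ℝ := 1 / ((k : ℝ) + 1) with hεdef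
  have hε : 0 < ε := by positivity
  have h2 : ∀ δ : Ω, ∃ g ∈ A, nrm g < ε / 4 ∧ ∀ α ∈ insert δ F, |w P.o α g| < ε / 4 :=
    fun δ => hA (ε / 4) (by positivity) (insert δ F)
  choose g hgA hgn hgw using h2
  set g0 : Ω → Gr Ω := fun δ => (g δ).filter (fun i => i.2.1 < δ) with hg0
  set g1 : Ω → Gr Ω := fun δ => (g δ).filter (fun i => ¬ i.2.1 < δ) with hg1
  have hsum : ∀ δ, g0 δ + g1 δ = g δ := fun δ => Finsupp.filter_add_filter_not _ _
  -- the lower part is constant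
  obtain ⟨Q, hQ⟩ := hk.fiber_finset (fun δ => (g0 δ).support.image (fun i => i.2.1)) (by
    intro δ _ x hx
    obtain ⟨i, hi, rfl⟩ := Finset.mem_image.1 hx
    exact prop_of_mem_filter hi)
  obtain ⟨c0, hc0⟩ := hQ.fiber_of_countable g0 _ (countable_supported Q) (by
    rintro δ ⟨_, hδ⟩ i hi
    rw [← hδ]
    exact Finset.mem_image_of_mem (fun i : Idx Ω => i.2.1) hi)
  -- the pattern of the upper part is constant
  have h3 : ∀ δ, ∃ t : (Σ m : ℕ, (Fin m → ℕ) × (Fin m → Bool) × (Fin m → ℤ)),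
      ∃ a : Fin t.1 → Ω, g1 δ = ∑ i, Finsupp.single (t.2.1 i, a i, t.2.2.1 i) (t.2.2.2 i) ∧
        ∑ i, (1 / 2 : ℝ) ^ t.2.1 i * |(t.2.2.2 i : ℝ)| = nrm (g1 δ) ∧
        ∀ i, (t.2.1 i, a i, t.2.2.1 i) ∈ (g1 δ).support := by
    intro δ
    obtain ⟨m, n, b, r, a, h1, h2, h3⟩ := exists_pattern (g1 δ)
    exact ⟨⟨m, n, b, r⟩, a, h1, h2, h3⟩
  choose pt hpt using h3
  obtain ⟨⟨m, n, b, r⟩, ht⟩ := hc0.fiber pt
  have h4 : ∀ δ, pt δ = ⟨m, n, b, r⟩ → ∃ a : Fin m → Ω,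
      g1 δ = ∑ i, Finsupp.single (n i, a i, b i) (r i) ∧
        ∑ i, (1 / 2 : ℝ) ^ n i * |(r i : ℝ)| = nrm (g1 δ) ∧
        ∀ i, (n i, a i, b i) ∈ (g1 δ).support := by
    intro δ hδ
    have := hpt δ
    rw [hδ] at this
    exact this
  choose! a ha1 ha2 ha3 using h4
  -- thin out
  have h5 : ∀ ξ : Ω, ∃ β, ∀ x ∈ ((g ξ).support.image (fun i => i.2.1) : Set Ω), x < β :=
    fun ξ => exists_gt_of_countable (Finset.countable_toSet _)
  choose bnd hbnd using h5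
  have hD := ht.inter_closure bnd
  set D := {δ ∈ {δ ∈ {δ ∈ {δ ∈ {δ ∈ {δ ∈ univ | FF δ = F} | kk δ = k} |
    (fun δ => (g0 δ).support.image (fun i => i.2.1)) δ = Q} | g0 δ = c0} | pt δ = ⟨m, n, b, r⟩} |
    ∀ ξ < δ, bnd ξ < δ} with hDdef
  have hDp : ∀ δ ∈ D, FF δ = F ∧ kk δ = k ∧ g0 δ = c0 ∧ pt δ = ⟨m, n, b, r⟩ ∧
      ∀ ξ < δ, bnd ξ < δ := by
    rintro δ ⟨⟨⟨⟨⟨⟨_, h1⟩, h2⟩, _⟩, h4⟩, h5⟩, h6⟩
    exact ⟨h1, h2, h4, h5, h6⟩
  have hmain : ∀ δ ∈ D, ∀ h ∈ A, (∀ i ∈ h.support, i.2.1 < δ) → nrm h < ε →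
      (∀ α ∈ F, |w P.o α h| < ε) → ε ≤ |w P.o δ h| := by
    intro δ hδ h hh h1 h2 h3
    obtain ⟨hf, hkk, -⟩ := hDp δ hδ
    have := hprop δ h hh h1
    rw [hkk, hf] at this
    exact this h2 h3
  have hle : ∀ δ ∈ D, ∀ i, δ ≤ a δ i := by
    intro δ hδ i
    have h1 := ha3 δ (hDp δ hδ).2.2.2.1 i
    have h2 := prop_of_mem_filter h1
    exact not_lt.1 h2
  obtain ⟨δ₀, hδ₀, -⟩ := hD id
  have hsmall : ∑ i, (1 / 2 : ℝ) ^ n i * |(r i : ℝ)| < ε / 2 := by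
    rw [ha2 δ₀ (hDp δ₀ hδ₀).2.2.2.1]
    have h1 : nrm (g1 δ₀) ≤ nrm (g δ₀) := nrm_filter_le _ _
    have h2 := hgn δ₀
    linarith
  obtain ⟨k₀, hk₀⟩ := trig_small n r (ε / 2) (by positivity) hsmall
  obtain ⟨x, hx, d, hd⟩ := P.shift D hD.not_countable m a hle k₀
  obtain ⟨j, hj, hj'⟩ := hk₀ (fun i => (1 / 2 : ℝ) ^ n i * (P.o (a x i) (d 0)) + phi (b i))
  obtain ⟨hdD, hxd, had, hod⟩ := hd j hj
  have e1 : ε ≤ |w P.o (d j) (g x)| := by
    refine hmain (d j) hdD (g x) (hgA x) ?_ ?_ ?_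
    · intro i hi
      have h1 : i.2.1 < bnd x := hbnd x i.2.1 (by
        rw [Finset.mem_coe]
        exact Finset.mem_image_of_mem (fun i : Idx Ω => i.2.1) hi)
      exact h1.trans ((hDp _ hdD).2.2.2.2 x hxd)
    · have := hgn x
      linarith
    · intro α hα
      have := hgw x α (Finset.mem_insert_of_mem hα)
      linarith
  have e2 : |w P.o (d j) (g0 x)| < ε / 4 := by
    have h1 : g0 x = g0 (d j) := by
      rw [(hDp x hx).2.2.1, (hDp _ hdD).2.2.1]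
    have h2 : w P.o (d j) (g1 (d j)) = 0 := by
      refine w_eq_zero P.o (d j) _ ?_
      intro i hi
      exact not_lt.1 (prop_of_mem_filter hi)
    have h3 : w P.o (d j) (g (d j)) = w P.o (d j) (g0 (d j)) := by
      rw [← hsum (d j), map_add, h2, add_zero]
    rw [h1, ← h3]
    exact hgw (d j) (d j) (Finset.mem_insert_self _ _)
  have e3 : |w P.o (d j) (g1 x)| < ε / 2 := by
    rw [ha1 x (hDp x hx).2.2.2.1, map_sum]
    have h1 : ∀ i, w P.o (d j) (Finsupp.single (n i, a x i, b i) (r i))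
        = (r i : ℝ) * Real.cos ((1 / 2 : ℝ) ^ n i * j +
          ((1 / 2 : ℝ) ^ n i * (P.o (a x i) (d 0)) + phi (b i))) := by
      intro i
      rw [w_single, coef, if_pos (had i), hod i]
      congr 2
      push_cast
      ring
    simp only [h1]
    exact hj'
  have e4 : |w P.o (d j) (g x)| ≤ |w P.o (d j) (g0 x)| + |w P.o (d j) (g1 x)| := by
    rw [← hsum x, map_add]
    exact abs_add_le _ _
  linarith

end FRE

end Pool.Agent.H14.Fre
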