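import Pool.Agent.H14.Fre.Defs

/-!
# Module OSC: elementary facts on oscillations along lists
-/

open Set

namespace Pool.Agent.H14.Fre

section Osc

variable {Ω : Type} {s t s' t' : Ω → ℕ}

theorem osc_cons_cons (s t : Ω → ℕ) (x y : Ω) (l : List Ω) :
    osc s t (x :: y :: l) = (if s x ≤ t x ∧ t y < s y then 1 else 0) + osc s t (y :: l) := rfl

theorem osc_congr {l : List Ω} (hs : ∀ x ∈ l, s x = s' x) (ht : ∀ x ∈ l, t x = t' x) :
    osc s t l = osc s' t' l := by
  induction l with
  | nil => rfl
  | cons x l ih =>
    cases l with
    | nil => rfl
    | cons y l =>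
      rw [osc_cons_cons, osc_cons_cons, ih (fun z hz => hs z (List.mem_cons_of_mem _ hz))
        (fun z hz => ht z (List.mem_cons_of_mem _ hz)), hs x (by simp), ht x (by simp),
        hs y (by simp), ht y (by simp)]

theorem osc_eq_zero_of_le (K : List Ω) (h : ∀ y ∈ K, s y ≤ t y) : osc s t K = 0 := by
  induction K with
  | nil => rfl
  | cons x l ih =>
    cases l with
    | nil => rfl
    | cons y l =>
      have hy := h y (by simp)
      rw [osc_cons_cons, ih fun z hz => h z (List.mem_cons_of_mem _ hz), if_neg (by omega)]

theorem osc_eq_zero_of_gt (K : List Ω) (h : ∀ y ∈ K, t y < s y) : osc s t K = 0 := by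
  induction K with
  | nil => rfl
  | cons x l ih =>
    cases l with
    | nil => rfl
    | cons y l =>
      have hx := h x (by simp)
      rw [osc_cons_cons, ih fun z hz => h z (List.mem_cons_of_mem _ hz), if_neg (by omega)]

theorem osc_append_le (l K : List Ω) (h : ∀ y ∈ K, s y ≤ t y) :
    osc s t (l ++ K) = osc s t l := by
  induction l with
  | nil => exact osc_eq_zero_of_le K h
  | cons x l ih =>
    cases l with
    | nil =>
      cases K with
      | nil => rfl
      | cons y K =>
        have hy := h y (by simp)
        rw [List.cons_append, List.nil_append, osc_cons_cons, osc_eq_zero_of_le _ h,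
          if_neg (by omega)]
        rfl
    | cons y l =>
      rw [List.cons_append, List.cons_append, osc_cons_cons, osc_cons_cons, ← ih,
        List.cons_append]

theorem osc_append_gt (l K : List Ω) (hl : l ≠ []) (hl' : s (l.getLast hl) ≤ t (l.getLast hl))
    (hK : K ≠ []) (h : ∀ y ∈ K, t y < s y) : osc s t (l ++ K) = osc s t l + 1 := by
  induction l with
  | nil => exact absurd rfl hl
  | cons x l ih =>
    cases l with
    | nil =>
      cases K with
      | nil => exact absurd rfl hK
      | cons y K =>
        have hy := h y (by simp)
        have hx : s x ≤ t x := hl'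
        rw [List.cons_append, List.nil_append, osc_cons_cons, osc_eq_zero_of_gt _ h,
          if_pos ⟨hx, hy⟩]
        rfl
    | cons y l =>
      have hl2 : s ((y :: l).getLast (List.cons_ne_nil _ _)) ≤
          t ((y :: l).getLast (List.cons_ne_nil _ _)) := by
        rw [List.getLast_cons (List.cons_ne_nil _ _)] at hl'
        exact hl'
      have := ih (List.cons_ne_nil _ _) hl2
      rw [List.cons_append, List.cons_append, osc_cons_cons, osc_cons_cons,
        ← List.cons_append, this]
      omega

theorem osc_append_of_last_gt (l K : List Ω) (hl : l ≠ [])
    (h : t (l.getLast hl) < s (l.getLast hl)) :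
    osc s t (l ++ K) = osc s t l + osc s t K := by
  induction l with
  | nil => exact absurd rfl hl
  | cons x l ih =>
    cases l with
    | nil =>
      cases K with
      | nil => rfl
      | cons y K =>
        have hx : t x < s x := h
        rw [List.cons_append, List.nil_append, osc_cons_cons, if_neg (by omega)]
        rfl
    | cons y l =>
      have hl2 : t ((y :: l).getLast (List.cons_ne_nil _ _)) <
          s ((y :: l).getLast (List.cons_ne_nil _ _)) := by
        rw [List.getLast_cons (List.cons_ne_nil _ _)] at h
        exact h
      have := ih (List.cons_ne_nil _ _) hl2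
      rw [List.cons_append, List.cons_append, osc_cons_cons, osc_cons_cons,
        ← List.cons_append, this]
      omega

theorem osc_append_bound (l K : List Ω) :
    osc s t (l ++ K) ≤ osc s t l + 1 + osc s t K ∧
      osc s t l + osc s t K ≤ osc s t (l ++ K) := by
  induction l with
  | nil =>
    have : osc s t ([] : List Ω) = 0 := rfl
    rw [List.nil_append, this]
    omega
  | cons x l ih =>
    cases l with
    | nil =>
      have h1 : osc s t [x] = 0 := rfl
      cases K with
      | nil =>
        have : osc s t ([] : List Ω) = 0 := rfl
        rw [List.append_nil, h1, this]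
        omega
      | cons y K =>
        rw [List.cons_append, List.nil_append, osc_cons_cons, h1]
        split_ifs <;> omega
    | cons y l =>
      rw [List.cons_append] at ih
      rw [List.cons_append, List.cons_append, osc_cons_cons, osc_cons_cons]
      omega

theorem osc_le_length (l : List Ω) : osc s t l ≤ l.length := by
  induction l with
  | nil => exact le_rfl
  | cons x l ih =>
    cases l with
    | nil => exact Nat.zero_le _
    | cons y l =>
      rw [osc_cons_cons]
      simp only [List.length_cons] at ih ⊢
      split_ifs <;> omega

theorem osc_change (s t t' : Ω → ℕ) (l : List Ω) (hl : l.Nodup) (D : Finset Ω)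
    (hD : ∀ x ∈ l, x ∉ D → t x = t' x) : osc s t l ≤ osc s t' l + 2 * D.card := by
  classical
  have key : ∀ (l : List Ω) (x : Ω), osc s t (x :: l) ≤ osc s t' (x :: l) +
      ((if t x ≠ t' x then 1 else 0) + 2 * (l.filter (fun y => t y ≠ t' y)).length) := by
    intro l
    induction l with
    | nil => intro x; exact Nat.zero_le _
    | cons y l ih =>
      intro x
      have h1 := ih y
      rw [osc_cons_cons, osc_cons_cons]
      by_cases hy : t y = t' y
      · rw [List.filter_cons_of_neg (by simp [hy])]
        split_ifs at h1 ⊢ <;> omega
      · rw [List.filter_cons_of_pos (by simp [hy]), List.length_cons]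
        split_ifs at h1 ⊢ <;> omega
  have hcard : (l.filter (fun y => t y ≠ t' y)).length ≤ D.card := by
    rw [← List.toFinset_card_of_nodup (hl.filter _)]
    apply Finset.card_le_card
    intro x hx
    rw [List.mem_toFinset, List.mem_filter] at hx
    by_contra hxD
    exact (of_decide_eq_true hx.2) (hD x hx.1 hxD)
  cases l with
  | nil => exact Nat.zero_le _
  | cons x l =>
    have h1 := key l x
    have h2 : (if t x ≠ t' x then 1 else 0) + (l.filter (fun y => t y ≠ t' y)).length ≤
        ((x :: l).filter (fun y => t y ≠ t' y)).length := by
      by_cases hx : t x = t' x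
      · rw [List.filter_cons_of_neg (by simp [hx]), if_neg (by simpa using hx)]
        omega
      · rw [List.filter_cons_of_pos (by simp [hx]), if_pos hx, List.length_cons]
        omega
    omega

end Osc

end Pool.Agent.H14.Fre
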