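import Pool.Agent.H14.Fre.E
import Pool.Agent.H14.Fre.L
import Pool.Agent.H14.Fre.OSC

/-!
# Module O1: bounded coherence of the oscillation function
-/

open Set

namespace Pool.Agent.H14.Fre

section Main

variable {Ω : Type} [LinearOrder Ω] [OrderBot Ω] [Om1 Ω] (C : CSeq Ω)

theorem O1_tail {δ γ : Ω} (h0 : ⊥ < δ) (h : δ < γ) :
    ∃ η < δ, ∃ N : ℕ, ∀ ξ < δ, η < ξ → C.o ξ γ ≤ C.o ξ δ + N ∧ C.o ξ δ ≤ C.o ξ γ + N := by
  classical
  have hF : ∀ x ∈ C.L δ γ, x < δ := fun x hx => C.L_lt h0 hx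
  -- the maximum of the list
  obtain ⟨M, hM, hMF⟩ : ∃ M < δ, ∀ x ∈ C.L δ γ, x ≤ M := by
    have key : ∀ l : List Ω, (∀ x ∈ l, x < δ) → ∃ M < δ, ∀ x ∈ l, x ≤ M := by
      intro l
      induction l with
      | nil => intro _; exact ⟨⊥, h0, by simp⟩
      | cons a l ih =>
        intro hl
        obtain ⟨M, hM, hMl⟩ := ih fun x hx => hl x (List.mem_cons_of_mem _ hx)
        refine ⟨max a M, max_lt (hl a List.mem_cons_self) hM, ?_⟩
        intro x hx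
        rcases List.mem_cons.1 hx with rfl | hx
        · exact le_max_left _ _
        · exact (hMl x hx).trans (le_max_right _ _)
    exact key _ hF
  obtain ⟨η, hη, hbig⟩ : ∃ η < δ, ∀ ξ, η < ξ → ξ < δ → ∀ x ∈ C.L δ γ, ∀ y ∈ C.L ξ δ, x < y := by
    by_cases hz : ∃ ζ, M < ζ ∧ ζ < δ
    · obtain ⟨ζ, hMζ, hζδ⟩ := hz
      obtain ⟨η, hη, hlarge⟩ := C.L_large hζδ
      refine ⟨η, hη, ?_⟩
      intro ξ h1 h2 x hx y hy
      exact ((hMF x hx).trans_lt hMζ).trans_le (hlarge ξ h1 h2 y hy)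
    · refine ⟨M, hM, ?_⟩
      intro ξ h1 h2
      exact absurd ⟨ξ, h1, h2⟩ hz
  have hcoh := C.e_coh h
  refine ⟨η, hη, (C.L δ γ).length + 1 + 2 * hcoh.toFinset.card, ?_⟩
  intro ξ hξ hηξ
  have hξ0 : ⊥ < ξ := lt_of_le_of_lt bot_le hηξ
  have happ : C.L ξ γ = C.L δ γ ++ C.L ξ δ :=
    C.L_append hξ0 hξ h.le (fun x hx y hy => hbig ξ hηξ hξ x hx y hy)
  have hnd : (C.L ξ δ).Nodup := (C.L_sorted ξ δ).imp fun h => ne_of_lt h
  have hD : ∀ x ∈ C.L ξ δ, x ∉ hcoh.toFinset → C.e x δ = C.e x γ := by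
    intro x hx hx'
    by_contra hne
    apply hx'
    simp only [Set.Finite.mem_toFinset, Set.mem_ofPred_eq]
    exact ⟨(C.L_lt hξ0 hx).trans hξ, hne⟩
  have h1 := osc_change (fun x => C.e x ξ) (fun x => C.e x γ) (fun x => C.e x δ) (C.L ξ δ) hnd
    hcoh.toFinset (fun x hx hx' => (hD x hx hx').symm)
  have h2 := osc_change (fun x => C.e x ξ) (fun x => C.e x δ) (fun x => C.e x γ) (C.L ξ δ) hnd
    hcoh.toFinset hD
  have h3 := osc_append_bound (s := fun x => C.e x ξ) (t := fun x => C.e x γ) (C.L δ γ) (C.L ξ δ)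
  have h4 := osc_le_length (s := fun x => C.e x ξ) (t := fun x => C.e x γ) (C.L δ γ)
  have h5 : C.o ξ γ = osc (fun x => C.e x ξ) (fun x => C.e x γ) (C.L δ γ ++ C.L ξ δ) := by
    unfold CSeq.o
    rw [happ]
  have h6 : C.o ξ δ = osc (fun x => C.e x ξ) (fun x => C.e x δ) (C.L ξ δ) := rfl
  rw [h5, h6]
  omega

theorem CSeq.o_bdd {δ γ : Ω} (h : δ < γ) :
    ∃ N : ℕ, ∀ ξ < δ, C.o ξ γ ≤ C.o ξ δ + N ∧ C.o ξ δ ≤ C.o ξ γ + N := by
  induction δ using WellFoundedLT.induction generalizing γ with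
  | ind δ ih =>
    rcases eq_or_lt_of_le (bot_le (a := δ)) with h0 | h0
    · refine ⟨0, ?_⟩
      intro ξ hξ
      rw [← h0] at hξ
      exact absurd hξ not_lt_bot
    · obtain ⟨η, hη, N0, hN0⟩ := O1_tail C h0 h
      obtain ⟨N1, hN1⟩ := ih η hη (γ := γ) (hη.trans h)
      obtain ⟨N2, hN2⟩ := ih η hη (γ := δ) hη
      refine ⟨N0 + N1 + N2 + (C.o η γ + C.o η δ), ?_⟩
      intro ξ hξ
      rcases lt_trichotomy ξ η with hlt | rfl | hgt
      · have h1 := hN1 ξ hlt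
        have h2 := hN2 ξ hlt
        omega
      · omega
      · have h1 := hN0 ξ hξ hgt
        omega

end Main

end Pool.Agent.H14.Fre
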