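import Pool.Agent.H14.Fre.Defs

/-!
# Countable sets and stationary sets
-/

open Set Filter Topology
open scoped Cardinal

namespace Pool.Agent.H14.Fre

section OM

variable {Ω : Type} [LinearOrder Ω] [Om1 Ω]

theorem countable_Iic' (β : Ω) : (Iic β).Countable := by
  rw [← Iio_insert]
  exact (Om1.countable_Iio β).insert β

theorem exists_gt_of_countable {B : Set Ω} (hB : B.Countable) : ∃ β, ∀ x ∈ B, x < β := by
  by_contra h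
  push Not at h
  have : (univ : Set Ω) ⊆ ⋃ i ∈ B, Iic i := by
    intro γ _
    obtain ⟨i, hi, h⟩ := h γ
    exact mem_biUnion hi h
  have h2 : (univ : Set Ω).Countable := (hB.biUnion fun i _ => countable_Iic' i).mono this
  exact Om1.uncountable (countable_univ_iff.mp h2)

theorem exists_om1 : ∃ (Ω : Type) (_ : LinearOrder Ω) (_ : OrderBot Ω), Om1 Ω := by
  let W : Type := (ℵ₁ : Cardinal.{0}).ord.ToType
  have hmk : #W = ℵ₁ := Cardinal.mk_ord_toType _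
  have hunc : Uncountable W := by rw [← Cardinal.aleph1_le_mk_iff, hmk]
  have hne : Nonempty W := inferInstance
  refine ⟨W, inferInstance, WellFoundedLT.toOrderBot W, ?_⟩
  refine ⟨inferInstance, ?_, ?_⟩
  · intro i
    rw [Cardinal.countable_iff_lt_aleph_one]
    exact Cardinal.mk_Iio_toType_ord_lt i
  · exact not_countable

variable [OrderBot Ω]

theorem exists_cseq (Ω : Type) [LinearOrder Ω] [Om1 Ω] [OrderBot Ω] : Nonempty (CSeq Ω) := by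
  classical
  have h : ∀ β : Ω, ∃ c : ℕ → Ω, Monotone c ∧ c 0 = ⊥ ∧ (⊥ < β → ∀ n, c n < β) ∧
      ∀ α, α < β → ∃ n, α ≤ c n := by
    intro β
    by_cases hβ : ⊥ < β
    · obtain ⟨x, hx⟩ := (Om1.countable_Iio β).exists_eq_range ⟨⊥, hβ⟩
      let c : ℕ → Ω := fun n => Nat.rec ⊥ (fun k r => max r (x k)) n
      have hc : ∀ n, c (n + 1) = max (c n) (x n) := fun n => rfl
      have hxlt : ∀ n, x n < β := by
        intro n
        have : x n ∈ Iio β := by rw [hx]; exact mem_range_self n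
        exact this
      refine ⟨c, monotone_nat_of_le_succ fun n => ?_, rfl, fun _ n => ?_, fun α hα => ?_⟩
      · rw [hc]; exact le_max_left _ _
      · induction n with
        | zero => exact hβ
        | succ n ih => rw [hc]; exact max_lt ih (hxlt n)
      · have : α ∈ range x := by rw [← hx]; exact hα
        obtain ⟨n, rfl⟩ := this
        exact ⟨n + 1, by rw [hc]; exact le_max_right _ _⟩
    · refine ⟨fun _ => ⊥, monotone_const, rfl, fun h => absurd h hβ, fun α hα => ?_⟩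
      exact absurd (lt_of_le_of_lt bot_le hα) hβ
  choose c h1 h2 h3 h4 using h
  exact ⟨⟨c, h1, h2, h3, fun α β hαβ => h4 β α hαβ⟩⟩

/-- a function bounding `f` on initial segments -/
theorem exists_bound_fun (f : Ω → Ω) : ∃ g : Ω → Ω, ∀ ξ, ∀ ζ ≤ ξ, f ζ < g ξ ∧ ξ < g ξ := by
  have h : ∀ ξ : Ω, ∃ β, ∀ x ∈ insert ξ (f '' Iic ξ), x < β := fun ξ =>
    exists_gt_of_countable (((countable_Iic' ξ).image f).insert ξ)
  choose g hg using h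
  refine ⟨g, fun ξ ζ hζ => ⟨hg ξ _ (mem_insert_of_mem _ (mem_image_of_mem f hζ)), hg ξ _ (mem_insert _ _)⟩⟩

theorem stat_univ : Stat (univ : Set Ω) := by
  intro f
  obtain ⟨g, hg⟩ := exists_bound_fun f
  obtain ⟨x0, hx0⟩ := exists_gt_of_countable (Ω := Ω) (countable_singleton (⊥ : Ω))
  let x : ℕ → Ω := fun n => Nat.rec x0 (fun _ r => g r) n
  have hx : ∀ n, x (n + 1) = g (x n) := fun n => rfl
  have hne : {y : Ω | ∀ n, x n < y}.Nonempty := by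
    obtain ⟨β, hβ⟩ := exists_gt_of_countable (countable_range x)
    exact ⟨β, fun n => hβ _ (mem_range_self n)⟩
  let δ := (wellFounded_lt (α := Ω)).min _ hne
  have hδ : ∀ n, x n < δ := (wellFounded_lt (α := Ω)).min_mem _ hne
  refine ⟨δ, mem_univ _, lt_trans (hx0 ⊥ (mem_singleton _)) (hδ 0), fun ξ hξ => ?_⟩
  have h1 : ¬ ∀ n, x n < ξ := fun h =>
    (wellFounded_lt (α := Ω)).not_lt_min {y : Ω | ∀ n, x n < y} h hξ
  push Not at h1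
  obtain ⟨n, hn⟩ := h1
  calc f ξ < g (x n) := (hg (x n) ξ hn).1
    _ = x (n + 1) := (hx n).symm
    _ < δ := hδ (n + 1)

theorem Stat.mono {S T : Set Ω} (h : Stat S) (hST : S ⊆ T) : Stat T := by
  intro f
  obtain ⟨δ, hδ, h1⟩ := h f
  exact ⟨δ, hST hδ, h1⟩

theorem Stat.inter_closure {S : Set Ω} (h : Stat S) (f : Ω → Ω) :
    Stat {δ ∈ S | ∀ ξ < δ, f ξ < δ} := by
  intro f'
  obtain ⟨δ, hδ, h0, h1⟩ := h (fun ξ => max (f ξ) (f' ξ))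
  exact ⟨δ, ⟨hδ, fun ξ hξ => lt_of_le_of_lt (le_max_left _ _) (h1 ξ hξ)⟩, h0,
    fun ξ hξ => lt_of_le_of_lt (le_max_right _ _) (h1 ξ hξ)⟩

theorem Stat.exists_gt {S : Set Ω} (h : Stat S) (β : Ω) : ∃ δ ∈ S, β < δ := by
  obtain ⟨δ, hδ, h0, h1⟩ := h (fun _ => β)
  exact ⟨δ, hδ, h1 ⊥ h0⟩

/-- stationary many points of `S` are limits of points of `S` (and `> ⊥`) -/
theorem Stat.limit {S : Set Ω} (h : Stat S) :
    Stat {δ ∈ S | ⊥ < δ ∧ ∀ ξ < δ, ∃ ζ ∈ S, ξ < ζ ∧ ζ < δ} := by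
  intro f
  choose g hg hg' using fun β => h.exists_gt β
  obtain ⟨δ, hδ, h0, h1⟩ := h (fun ξ => max (f ξ) (g ξ))
  refine ⟨δ, ⟨hδ, h0, fun ξ hξ => ⟨g ξ, hg ξ, hg' ξ, lt_of_le_of_lt (le_max_right _ _) (h1 ξ hξ)⟩⟩, h0,
    fun ξ hξ => lt_of_le_of_lt (le_max_left _ _) (h1 ξ hξ)⟩

/-- diagonal intersection -/
theorem exists_diag (f : Ω → Ω → Ω) : ∃ F : Ω → Ω, ∀ ξ, ∀ ρ ≤ ξ, ∀ z ≤ ξ, f ρ z < F ξ := by
  have h : ∀ ξ : Ω, ∃ β, ∀ x ∈ (fun p : Ω × Ω => f p.1 p.2) '' (Iic ξ ×ˢ Iic ξ), x < β := fun ξ =>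
    exists_gt_of_countable (((countable_Iic' ξ).prod (countable_Iic' ξ)).image _)
  choose F hF using h
  refine ⟨F, fun ξ ρ hρ z hz => hF ξ _ ⟨(ρ, z), ⟨hρ, hz⟩, rfl⟩⟩

theorem Stat.fodor {S : Set Ω} (h : Stat S) (r : Ω → Ω) (hr : ∀ δ ∈ S, r δ < δ) :
    ∃ ρ, Stat {δ ∈ S | r δ = ρ} := by
  by_contra hcon
  push Not at hcon
  have h' : ∀ ρ : Ω, ∃ f : Ω → Ω, ∀ δ ∈ {δ ∈ S | r δ = ρ}, ⊥ < δ → ∃ ξ < δ, δ ≤ f ξ := by
    intro ρ
    have := hcon ρ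
    unfold Stat at this
    push Not at this
    obtain ⟨f, hf⟩ := this
    exact ⟨f, fun δ hδ h0 => hf δ hδ h0⟩
  choose f hf using h'
  obtain ⟨F, hF⟩ := exists_diag f
  obtain ⟨δ, hδ, h0, h1⟩ := h F
  obtain ⟨ξ, hξ, hξ'⟩ := hf (r δ) δ ⟨hδ, rfl⟩ h0
  have h2 : max ξ (r δ) < δ := max_lt hξ (hr δ hδ)
  have h3 := hF (max ξ (r δ)) (r δ) (le_max_right _ _) ξ (le_max_left _ _)
  exact absurd (lt_trans h3 (h1 _ h2)) (not_lt.2 hξ')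

theorem Stat.fiber {τ : Type} [Countable τ] {S : Set Ω} (h : Stat S) (f : Ω → τ) :
    ∃ t, Stat {δ ∈ S | f δ = t} := by
  by_contra hcon
  push Not at hcon
  have h' : ∀ t : τ, ∃ g : Ω → Ω, ∀ δ ∈ {δ ∈ S | f δ = t}, ⊥ < δ → ∃ ξ < δ, δ ≤ g ξ := by
    intro t
    have := hcon t
    unfold Stat at this
    push Not at this
    obtain ⟨g, hg⟩ := this
    exact ⟨g, fun δ hδ h0 => hg δ hδ h0⟩
  choose g hg using h'
  have hF : ∀ ξ : Ω, ∃ β, ∀ x ∈ range (fun t => g t ξ), x < β := fun ξ =>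
    exists_gt_of_countable (countable_range _)
  choose F hF using hF
  obtain ⟨δ, hδ, h0, h1⟩ := h F
  obtain ⟨ξ, hξ, hξ'⟩ := hg (f δ) δ ⟨hδ, rfl⟩ h0
  have h3 := hF ξ _ (mem_range_self (f δ))
  exact absurd (lt_trans h3 (h1 _ hξ)) (not_lt.2 hξ')

theorem Stat.fiber_finset {S : Set Ω} (h : Stat S) (P : Ω → Finset Ω)
    (hP : ∀ δ ∈ S, ∀ x ∈ P δ, x < δ) : ∃ Q, Stat {δ ∈ S | P δ = Q} := by
  have h0 : Stat {δ ∈ S | ∀ ξ < δ, (fun _ => (⊥ : Ω)) ξ < δ} := h.inter_closure (fun _ => ⊥)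
  have hS : Stat {δ ∈ S | ⊥ < δ} := by
    intro f
    obtain ⟨δ, hδ, h1, h2⟩ := h f
    exact ⟨δ, ⟨hδ, h1⟩, h1, h2⟩
  obtain ⟨ρ, hρ⟩ := hS.fodor (fun δ => (P δ).sup id) (by
    rintro δ ⟨hδ, h1⟩
    rw [Finset.sup_lt_iff h1]
    exact fun x hx => hP δ hδ x hx)
  haveI : Countable (Iic ρ) := (countable_Iic' ρ).to_subtype
  classical
  obtain ⟨Q, hQ⟩ := hρ.fiber (fun δ => (P δ).subtype (· ∈ Iic ρ))
  refine ⟨Q.map (Function.Embedding.subtype _), hQ.mono ?_⟩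
  rintro δ ⟨⟨⟨hδ, h1⟩, h2⟩, h3⟩
  refine ⟨hδ, ?_⟩
  rw [← h3, Finset.subtype_map, Finset.filter_true_of_mem]
  intro x hx
  rw [mem_Iic, ← h2]
  exact Finset.le_sup (f := id) hx

theorem exists_good {S₁ S₂ S₃ : Set Ω} (h₁ : ¬ Stat S₁) (h₂ : ¬ Stat S₂) (h₃ : ¬ Stat S₃) :
    ∃ δ, ⊥ < δ ∧ (∀ ξ < δ, ∃ η, ξ < η ∧ η < δ) ∧ δ ∉ S₁ ∧ δ ∉ S₂ ∧ δ ∉ S₃ := by
  unfold Stat at h₁ h₂ h₃
  push Not at h₁ h₂ h₃
  obtain ⟨f₁, h₁⟩ := h₁
  obtain ⟨f₂, h₂⟩ := h₂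
  obtain ⟨f₃, h₃⟩ := h₃
  have hs : ∀ ξ : Ω, ∃ β, ξ < β := fun ξ => by
    obtain ⟨β, hβ⟩ := exists_gt_of_countable (countable_singleton ξ)
    exact ⟨β, hβ ξ (mem_singleton _)⟩
  choose s hs using hs
  obtain ⟨δ, -, h0, h⟩ := stat_univ (Ω := Ω) (fun ξ => max (max (f₁ ξ) (f₂ ξ)) (max (f₃ ξ) (s ξ)))
  have hf1 : ∀ ξ < δ, f₁ ξ < δ := fun ξ hξ =>
    lt_of_le_of_lt ((le_max_left _ _).trans (le_max_left _ _)) (h ξ hξ)
  have hf2 : ∀ ξ < δ, f₂ ξ < δ := fun ξ hξ =>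
    lt_of_le_of_lt ((le_max_right _ _).trans (le_max_left _ _)) (h ξ hξ)
  have hf3 : ∀ ξ < δ, f₃ ξ < δ := fun ξ hξ =>
    lt_of_le_of_lt ((le_max_left _ _).trans (le_max_right _ _)) (h ξ hξ)
  have hf4 : ∀ ξ < δ, s ξ < δ := fun ξ hξ =>
    lt_of_le_of_lt ((le_max_right _ _).trans (le_max_right _ _)) (h ξ hξ)
  refine ⟨δ, h0, fun ξ hξ => ⟨s ξ, hs ξ, hf4 ξ hξ⟩, fun hS => ?_, fun hS => ?_, fun hS => ?_⟩
  · obtain ⟨ξ, hξ, h5⟩ := h₁ δ hS h0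
    exact absurd (hf1 ξ hξ) (not_lt.2 h5)
  · obtain ⟨ξ, hξ, h5⟩ := h₂ δ hS h0
    exact absurd (hf2 ξ hξ) (not_lt.2 h5)
  · obtain ⟨ξ, hξ, h5⟩ := h₃ δ hS h0
    exact absurd (hf3 ξ hξ) (not_lt.2 h5)

end OM

end Pool.Agent.H14.Fre
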