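import Pool.Agent.H14.Fre.Defs
import Pool.Agent.H14.Fre.OM
import Pool.Agent.H14.Fre.E
import Pool.Agent.H14.Fre.L
import Pool.Agent.H14.Fre.OSC
import Pool.Agent.H14.Fre.EXT

/-!
# The shift property of the oscillation function
-/

open Set

namespace Pool.Agent.H14.Fre

section Main

variable {Ω : Type} [LinearOrder Ω] [OrderBot Ω] [Om1 Ω] (C : CSeq Ω)

/-- The chain statement in the proof of the shift property. -/
def Chain (D : Set Ω) {m : ℕ} (a : Ω → Fin m → Ω) (δ : Ω) (n : ℕ) : Prop :=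
  ∃ x ∈ D, δ ≤ x ∧ ∃ b : ℕ → Ω, ∃ base : Fin m → ℕ, ∀ j ≤ n,
    b j ∈ D ∧ δ ≤ b j ∧ (∀ ξ ∈ C.L δ (b j), ξ ∈ C.L δ (b n)) ∧
      ∃ h : C.L δ (b j) ≠ [],
        (∀ i, C.e ((C.L δ (b j)).getLast h) (b j) < C.e ((C.L δ (b j)).getLast h) (a x i)) ∧
        ∀ i, osc (fun ξ => C.e ξ (a x i)) (fun ξ => C.e ξ (b j)) (C.L δ (b j)) = base i + j

omit [OrderBot Ω] in
theorem exists_mem_ge {D : Set Ω} (hD : ¬ D.Countable) (δ : Ω) : ∃ x ∈ D, δ ≤ x := by
  by_contra h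
  push Not at h
  exact hD ((Om1.countable_Iio δ).mono fun x hx => h x hx)

theorem chain_zero {D : Set Ω} (hD : ¬ D.Countable) {m : ℕ} (a : Ω → Fin m → Ω) (δ : Ω)
    (hgt : ∀ x ∈ D, ∀ b ∈ D, δ ≤ x → δ ≤ b → Ext C D a (fun p q => q < p) δ x b) :
    Chain C D a δ 0 := by
  obtain ⟨x, hx, hδx⟩ := exists_mem_ge hD δ
  obtain ⟨x', hx', b', hb', hδx', hδb', K, hK, hL, -, -, hgt'⟩ := hgt x hx x hx hδx hδx
  have hne : C.L δ b' ≠ [] := by
    rw [hL]
    simp [hK]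
  have hlast : (C.L δ b').getLast hne ∈ K := by
    have h1 : (C.L δ b').getLast hne = (C.L δ x ++ K).getLast (by simp [hK]) := by
      congr 1
    rw [h1, List.getLast_append_of_ne_nil _ hK]
    exact List.getLast_mem hK
  refine ⟨x', hx', hδx', fun _ => b', fun i =>
    osc (fun ξ => C.e ξ (a x' i)) (fun ξ => C.e ξ b') (C.L δ b'), ?_⟩
  intro j hj
  obtain rfl : j = 0 := by omega
  refine ⟨hb', hδb', fun ξ h => h, hne, fun i => hgt' _ hlast i, fun i => rfl⟩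

theorem chain_succ {D : Set Ω} {m : ℕ} (a : Ω → Fin m → Ω) (δ : Ω)
    (heq : ∀ x ∈ D, ∀ b ∈ D, δ ≤ x → δ ≤ b → Ext C D a (fun p q => p = q) δ x b)
    (hgt : ∀ x ∈ D, ∀ b ∈ D, δ ≤ x → δ ≤ b → Ext C D a (fun p q => q < p) δ x b)
    {n : ℕ} (h : Chain C D a δ n) : Chain C D a δ (n + 1) := by
  obtain ⟨x, hx, hδx, b, base, hb⟩ := h
  obtain ⟨hbn, hδbn, -, hnen, hlastn, hoscn⟩ := hb n le_rfl
  obtain ⟨x1, hx1, b1, hb1, hδx1, hδb1, K1, hK1, hL1, ha1, he1, hR1⟩ :=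
    heq x hx (b n) hbn hδx hδbn
  obtain ⟨x2, hx2, b2, hb2, hδx2, hδb2, K2, hK2, hL2, ha2, he2, hR2⟩ :=
    hgt x1 hx1 b1 hb1 hδx1 hδb1
  -- membership
  have hmem1 : ∀ ξ ∈ C.L δ (b n), ξ ∈ C.L δ b1 := by
    intro ξ h
    rw [hL1]
    exact List.mem_append_left _ h
  have hmem2 : ∀ ξ ∈ C.L δ b1, ξ ∈ C.L δ b2 := by
    intro ξ h
    rw [hL2]
    exact List.mem_append_left _ h
  have hax : ∀ ξ ∈ C.L δ (b n), ∀ i, C.e ξ (a x2 i) = C.e ξ (a x i) := by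
    intro ξ h i
    rw [ha2 ξ (hmem1 ξ h) i, ha1 ξ h i]
  refine ⟨x2, hx2, hδx2, fun j => if j ≤ n then b j else b2, base, ?_⟩
  intro j hj
  have hn1 : ¬ (n + 1 ≤ n) := by omega
  simp only [hn1, if_false]
  by_cases hjn : j ≤ n
  · simp only [hjn, if_true]
    obtain ⟨hbj, hδbj, hsub, hne, hlast, hosc⟩ := hb j hjn
    refine ⟨hbj, hδbj, fun ξ h => hmem2 _ (hmem1 _ (hsub ξ h)), hne, ?_, ?_⟩
    · intro i
      rw [hax _ (hsub _ (List.getLast_mem hne)) i]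
      exact hlast i
    · intro i
      rw [← hosc i]
      exact osc_congr (fun ξ h => hax ξ (hsub ξ h) i) (fun ξ _ => rfl)
  · obtain rfl : j = n + 1 := by omega
    simp only [hn1, if_false]
    have hne : C.L δ b2 ≠ [] := by
      rw [hL2]
      simp [hK2]
    have hlast : (C.L δ b2).getLast hne ∈ K2 := by
      have h1 : (C.L δ b2).getLast hne = (C.L δ b1 ++ K2).getLast (by simp [hK2]) := by
        congr 1
      rw [h1, List.getLast_append_of_ne_nil _ hK2]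
      exact List.getLast_mem hK2
    refine ⟨hb2, hδb2, fun ξ h => h, hne, fun i => hR2 _ hlast i, ?_⟩
    intro i
    have hne1 : C.L δ (b n) ++ K1 ≠ [] := by simp [hK1]
    have hlast1 : (C.L δ (b n) ++ K1).getLast hne1 ∈ K1 := by
      rw [List.getLast_append_of_ne_nil _ hK1]
      exact List.getLast_mem hK1
    have hK1' : ∀ y ∈ K1, C.e y (a x2 i) ≤ C.e y b2 := by
      intro y hy
      have hy1 : y ∈ C.L δ b1 := by
        rw [hL1]
        exact List.mem_append_right _ hy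
      rw [ha2 y hy1 i, he2 y hy1]
      exact (hR1 y hy i).le
    rw [hL2, hL1, osc_append_gt _ _ hne1 (hK1' _ hlast1) hK2 (fun y hy => hR2 y hy i),
      osc_append_le _ _ hK1']
    have hcongr : osc (fun ξ => C.e ξ (a x2 i)) (fun ξ => C.e ξ b2) (C.L δ (b n)) =
        osc (fun ξ => C.e ξ (a x i)) (fun ξ => C.e ξ (b n)) (C.L δ (b n)) := by
      refine osc_congr (fun ξ h => hax ξ h i) (fun ξ h => ?_)
      rw [he2 ξ (hmem1 ξ h), he1 ξ h]
    rw [hcongr, hoscn i]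
    ring

theorem CSeq.o_shift (D : Set Ω) (hD : ¬ D.Countable) (m : ℕ) (a : Ω → Fin m → Ω)
    (ha : ∀ x ∈ D, ∀ i, x ≤ a x i) (k : ℕ) : ∃ x ∈ D, ∃ d : ℕ → Ω, ∀ j < k,
      d j ∈ D ∧ x < d j ∧ (∀ i, a x i < d j) ∧
        ∀ i, C.o (a x i) (d j) = C.o (a x i) (d 0) + j := by
  classical
  obtain ⟨δ, hδ0, hlim, hE, hG, hR⟩ := exists_good (not_stat_bad_eq C D a ha)
    (not_stat_bad_gt C D a ha) (not_stat_badRefl C D a ha)
  have heq : ∀ x ∈ D, ∀ b ∈ D, δ ≤ x → δ ≤ b → Ext C D a (fun p q => p = q) δ x b := by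
    intro x hx b hb h1 h2
    by_contra h
    exact hE ⟨x, hx, b, hb, h1, h2, h⟩
  have hgt : ∀ x ∈ D, ∀ b ∈ D, δ ≤ x → δ ≤ b → Ext C D a (fun p q => q < p) δ x b := by
    intro x hx b hb h1 h2
    by_contra h
    exact hG ⟨x, hx, b, hb, h1, h2, h⟩
  have hchain : ∀ n, Chain C D a δ n := by
    intro n
    induction n with
    | zero => exact chain_zero C hD a δ hgt
    | succ n ih => exact chain_succ C a δ heq hgt ih
  obtain ⟨x, hx, hδx, b, base, hb⟩ := hchain k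
  -- the finite set
  have hcoh : ∀ j ≤ k, {ξ | ξ < δ ∧ C.e ξ (b j) ≠ C.e ξ δ}.Finite := by
    intro j hj
    rcases (hb j hj).2.1.eq_or_lt with h | h
    · rw [← h]
      convert Set.finite_empty
      ext ξ
      simp
    · refine (C.e_coh h).subset ?_
      rintro ξ ⟨h1, h2⟩
      exact ⟨h1, fun h3 => h2 h3.symm⟩
  have hfin : (⋃ j ∈ Finset.range (k + 1), {ξ | ξ < δ ∧ C.e ξ (b j) ≠ C.e ξ δ}).Finite := by
    refine Set.Finite.biUnion (Finset.finite_toSet _) ?_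
    intro j hj
    have hj' : j < k + 1 := by simpa using hj
    exact hcoh j (by omega)
  let F : Finset Ω := (C.L δ (b k)).toFinset
  have hF : ∀ ξ ∈ F, ξ < δ := by
    intro ξ h
    exact C.L_lt hδ0 (List.mem_toFinset.1 h)
  let Q : Finset Ω := F ∪ hfin.toFinset
  have hQ : ∀ ξ ∈ Q, ξ < δ := by
    intro ξ h
    rcases Finset.mem_union.1 h with h | h
    · exact hF ξ h
    · rw [Set.Finite.mem_toFinset] at h
      simp only [Set.mem_iUnion] at h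
      obtain ⟨j, _, h1, _⟩ := h
      exact h1
  obtain ⟨ζ, hζδ, hζ⟩ : ∃ ζ < δ, ∀ ξ ∈ Q, ξ < ζ := by
    rcases Q.eq_empty_or_nonempty with h | h
    · exact ⟨⊥, hδ0, by simp [h]⟩
    · obtain ⟨η, h1, h2⟩ := hlim (Q.max' h) (hQ _ (Q.max'_mem h))
      exact ⟨η, h2, fun ξ h3 => lt_of_le_of_lt (Q.le_max' ξ h3) h1⟩
  obtain ⟨η, hηδ, hη⟩ := C.L_large hζδ
  have hrefl : ∃ x' ∈ D, x' < δ ∧ (∀ i, η < a x' i ∧ a x' i < δ) ∧
      ∀ ξ ∈ F, ∀ i, C.e ξ (a x' i) = C.e ξ (a x i) := by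
    by_contra h
    exact hR ⟨x, hx, hδx, F, hF, η, hηδ, h⟩
  obtain ⟨x', hx', hx'δ, ha', hF'⟩ := hrefl
  have hmain : ∀ j ≤ k, ∀ i, C.o (a x' i) (b j) = base i + j +
      osc (fun ξ => C.e ξ (a x' i)) (fun ξ => C.e ξ δ) (C.L (a x' i) δ) := by
    intro j hj i
    obtain ⟨hbj, hδbj, hsub, hne, hlast, hosc⟩ := hb j hj
    obtain ⟨h1, h2⟩ := ha' i
    have h0 : ⊥ < a x' i := lt_of_le_of_lt bot_le h1
    have hsubF : ∀ ξ ∈ C.L δ (b j), ξ ∈ F := fun ξ h => List.mem_toFinset.2 (hsub ξ h)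
    have hLap : C.L (a x' i) (b j) = C.L δ (b j) ++ C.L (a x' i) δ := by
      refine C.L_append h0 h2 hδbj ?_
      intro u hu v hv
      exact lt_of_lt_of_le (hζ u (Finset.mem_union_left _ (hsubF u hu))) (hη _ h1 h2 v hv)
    have hl : C.e ((C.L δ (b j)).getLast hne) (b j) <
        C.e ((C.L δ (b j)).getLast hne) (a x' i) := by
      rw [hF' _ (hsubF _ (List.getLast_mem hne)) i]
      exact hlast i
    unfold CSeq.o
    rw [hLap, osc_append_of_last_gt _ _ hne hl]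
    congr 1
    · rw [← hosc i]
      exact osc_congr (fun ξ h => hF' ξ (hsubF ξ h) i) (fun ξ _ => rfl)
    · refine osc_congr (fun ξ _ => rfl) (fun ξ h => ?_)
      by_contra hne'
      have hξδ : ξ < δ := (C.L_lt h0 h).trans h2
      have hξQ : ξ ∈ Q := by
        refine Finset.mem_union_right _ ?_
        rw [Set.Finite.mem_toFinset]
        simp only [Set.mem_iUnion]
        exact ⟨j, Finset.mem_range.2 (by omega), hξδ, hne'⟩
      exact absurd (hζ ξ hξQ) (not_lt.2 (hη _ h1 h2 ξ h))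
  refine ⟨x', hx', b, ?_⟩
  intro j hj
  obtain ⟨hbj, hδbj, -⟩ := hb j hj.le
  refine ⟨hbj, lt_of_lt_of_le hx'δ hδbj, fun i => lt_of_lt_of_le (ha' i).2 hδbj, ?_⟩
  intro i
  rw [hmain j hj.le i, hmain 0 (Nat.zero_le _) i]
  ring

end Main

end Pool.Agent.H14.Fre
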