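import Pool.Agent.H14.Fre.NRM

/-!
# Module TOP: the topology of the group
-/

open Set Filter Topology

namespace Pool.Agent.H14.Fre

section Group

variable {Ω : Type} [LinearOrder Ω]

/-- the norm as an `AddGroupNorm` -/
noncomputable def nrmNorm (Ω : Type) : AddGroupNorm (Gr Ω) where
  toFun := nrm
  map_zero' := nrm_zero
  add_le' := nrm_add_le
  neg' := nrm_neg
  eq_zero_of_map_eq_zero' := fun _ h => eq_zero_of_nrm h

/-- The topology of the norm. -/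
noncomputable def tnorm (Ω : Type) : TopologicalSpace (Gr Ω) :=
  (nrmNorm Ω).toNormedAddGroup.toMetricSpace.toPseudoMetricSpace.toUniformSpace.toTopologicalSpace

/-- The topology of the group. -/
noncomputable def tau (o : Ω → Ω → ℕ) : TopologicalSpace (Gr Ω) :=
  tnorm Ω ⊓ ⨅ δ, TopologicalSpace.induced (w o δ) inferInstance

theorem tnorm_group (Ω : Type) : @IsTopologicalAddGroup (Gr Ω) (tnorm Ω) _ := by
  letI : NormedAddCommGroup (Gr Ω) := (nrmNorm Ω).toNormedAddCommGroup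
  have h : IsTopologicalAddGroup (Gr Ω) := inferInstance
  exact h

theorem tnorm_t2 (Ω : Type) : @T2Space (Gr Ω) (tnorm Ω) := by
  letI : NormedAddCommGroup (Gr Ω) := (nrmNorm Ω).toNormedAddCommGroup
  have h : T2Space (Gr Ω) := inferInstance
  exact h

theorem tnorm_basis (x : Gr Ω) : (@nhds _ (tnorm Ω) x).HasBasis (fun ε : ℝ => 0 < ε)
    (fun ε => {y | nrm (y - x) < ε}) := by
  letI : NormedAddCommGroup (Gr Ω) := (nrmNorm Ω).toNormedAddCommGroup
  have h := Metric.nhds_basis_ball (x := x)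
  have e : ∀ y : Gr Ω, dist y x = nrm (y - x) := by
    intro y
    rw [dist_eq_norm]
    rfl
  have e2 : (fun ε : ℝ => {y : Gr Ω | nrm (y - x) < ε}) = Metric.ball x := by
    funext ε
    ext y
    rw [Metric.mem_ball, e y]
    rfl
  rw [e2]
  exact h

theorem tendsto_tnorm (u : ℕ → Gr Ω) (x : Gr Ω) :
    Tendsto u atTop (@nhds _ (tnorm Ω) x) ↔ Tendsto (fun n => nrm (u n - x)) atTop (𝓝 0) := by
  rw [(tnorm_basis x).tendsto_right_iff, Metric.tendsto_nhds]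
  constructor
  · intro h ε hε
    filter_upwards [h ε hε] with n hn
    rw [Real.dist_eq, sub_zero, abs_of_nonneg (nrm_nonneg _)]
    exact hn
  · intro h ε hε
    filter_upwards [h ε hε] with n hn
    rw [Real.dist_eq, sub_zero, abs_of_nonneg (nrm_nonneg _)] at hn
    exact hn

theorem nhds_tau (o : Ω → Ω → ℕ) (x : Gr Ω) : @nhds _ (tau o) x =
    @nhds _ (tnorm Ω) x ⊓ ⨅ δ, comap (w o δ) (𝓝 (w o δ x)) := by
  unfold tau
  rw [nhds_inf, nhds_iInf]
  congr 1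
  apply iInf_congr
  intro δ
  rw [nhds_induced]

theorem tau_group (o : Ω → Ω → ℕ) : @IsTopologicalAddGroup (Gr Ω) (tau o) _ := by
  unfold tau
  exact topologicalAddGroup_inf (tnorm_group Ω)
    (topologicalAddGroup_iInf fun δ => topologicalAddGroup_induced (w o δ))

theorem tau_t2 (o : Ω → Ω → ℕ) : @T2Space (Gr Ω) (tau o) :=
  t2Space_antitone (inf_le_left : tau o ≤ tnorm Ω) (tnorm_t2 Ω)

/-- the basic neighbourhoods -/
def tauU (o : Ω → Ω → ℕ) (x : Gr Ω) (ε : ℝ) (E : Finset Ω) : Set (Gr Ω) :=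
  {y | nrm (y - x) < ε ∧ ∀ δ ∈ E, |w o δ (y - x)| < ε}

theorem tauU_mem (o : Ω → Ω → ℕ) (x : Gr Ω) {ε : ℝ} (hε : 0 < ε) (E : Finset Ω) :
    tauU o x ε E ∈ @nhds _ (tau o) x := by
  rw [nhds_tau]
  have h1 : {y | nrm (y - x) < ε} ∈ @nhds _ (tnorm Ω) x := (tnorm_basis x).mem_of_mem hε
  have h2 : ∀ δ, {y | |w o δ (y - x)| < ε} ∈ comap (w o δ) (𝓝 (w o δ x)) := by
    intro δ
    rw [mem_comap]
    refine ⟨Metric.ball (w o δ x) ε, Metric.ball_mem_nhds _ hε, ?_⟩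
    intro y hy
    rw [mem_preimage, Metric.mem_ball, Real.dist_eq] at hy
    show |w o δ (y - x)| < ε
    rw [map_sub]
    exact hy
  have h3 : ∀ δ, {y | |w o δ (y - x)| < ε} ∈ ⨅ δ, comap (w o δ) (𝓝 (w o δ x)) :=
    fun δ => mem_iInf_of_mem δ (h2 δ)
  have h4 : (⋂ δ ∈ E, {y | |w o δ (y - x)| < ε}) ∈ ⨅ δ, comap (w o δ) (𝓝 (w o δ x)) :=
    (biInter_finset_mem E).2 fun δ _ => h3 δ
  filter_upwards [mem_inf_of_left h1, mem_inf_of_right h4] with y hy1 hy2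
  refine ⟨hy1, fun δ hδ => ?_⟩
  rw [mem_iInter₂] at hy2
  exact hy2 δ hδ

theorem exists_tauU (o : Ω → Ω → ℕ) (x : Gr Ω) {t : Set (Gr Ω)} (ht : t ∈ @nhds _ (tau o) x) :
    ∃ ε > 0, ∃ E : Finset Ω, tauU o x ε E ⊆ t := by
  classical
  let ι := {p : ℝ × Finset Ω // 0 < p.1}
  let s : ι → Set (Gr Ω) := fun p => tauU o x p.1.1 p.1.2
  have hdir : Directed (· ≥ ·) s := by
    rintro ⟨⟨ε, E⟩, hε⟩ ⟨⟨ε', E'⟩, hε'⟩
    refine ⟨⟨(min ε ε', E ∪ E'), lt_min hε hε'⟩, ?_, ?_⟩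
    · rintro y ⟨h1, h2⟩
      refine ⟨h1.trans_le (min_le_left _ _), fun δ hδ => ?_⟩
      exact (h2 δ (Finset.mem_union_left _ hδ)).trans_le (min_le_left _ _)
    · rintro y ⟨h1, h2⟩
      refine ⟨h1.trans_le (min_le_right _ _), fun δ hδ => ?_⟩
      exact (h2 δ (Finset.mem_union_right _ hδ)).trans_le (min_le_right _ _)
  have hne : Nonempty ι := ⟨⟨(1, ∅), one_pos⟩⟩
  have hle : (⨅ i, 𝓟 (s i)) ≤ @nhds _ (tau o) x := by
    rw [nhds_tau]
    apply le_inf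
    · rw [(tnorm_basis x).ge_iff]
      intro ε hε
      refine mem_iInf_of_mem ⟨(ε, ∅), hε⟩ ?_
      rw [mem_principal]
      rintro y ⟨h1, _⟩
      exact h1
    · apply le_iInf
      intro δ
      rw [(Metric.nhds_basis_ball.comap _).ge_iff]
      intro ε hε
      refine mem_iInf_of_mem ⟨(ε, {δ}), hε⟩ ?_
      rw [mem_principal]
      rintro y ⟨_, h2⟩
      have h3 := h2 δ (Finset.mem_singleton_self δ)
      rw [map_sub] at h3
      rw [mem_preimage, Metric.mem_ball, Real.dist_eq]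
      exact h3
  have h1 := (hasBasis_iInf_principal hdir).mem_iff.1 (hle ht)
  obtain ⟨⟨⟨ε, E⟩, hε⟩, _, h2⟩ := h1
  exact ⟨ε, hε, E, h2⟩

theorem mem_closure_tau (o : Ω → Ω → ℕ) (A : Set (Gr Ω)) (x : Gr Ω) :
    x ∈ @closure _ (tau o) A ↔ ∀ ε > 0, ∀ E : Finset Ω, ∃ g ∈ A,
      nrm (g - x) < ε ∧ ∀ δ ∈ E, |w o δ (g - x)| < ε := by
  rw [@mem_closure_iff_nhds _ (tau o)]
  constructor
  · intro h ε hε E
    obtain ⟨g, hg1, hg2⟩ := h _ (tauU_mem o x hε E)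
    exact ⟨g, hg2, hg1⟩
  · intro h t ht
    obtain ⟨ε, hε, E, hsub⟩ := exists_tauU o x ht
    obtain ⟨g, hg1, hg2⟩ := h ε hε E
    exact ⟨g, hsub hg2, hg1⟩

theorem tendsto_tau (o : Ω → Ω → ℕ) (u : ℕ → Gr Ω) (x : Gr Ω) :
    Tendsto u atTop (@nhds _ (tau o) x) ↔ Tendsto (fun n => nrm (u n - x)) atTop (𝓝 0) ∧
      ∀ δ, Tendsto (fun n => w o δ (u n - x)) atTop (𝓝 0) := by
  rw [nhds_tau, tendsto_inf, tendsto_iInf, tendsto_tnorm]
  apply and_congr_right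
  intro _
  apply forall_congr'
  intro δ
  rw [tendsto_comap_iff]
  have e : (fun n => w o δ (u n - x)) = fun n => (w o δ ∘ u) n - w o δ x := by
    funext n
    rw [map_sub]; rfl
  rw [e, tendsto_sub_nhds_zero_iff]

end Group

end Pool.Agent.H14.Fre
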