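import Pool.Agent.H14.Fre.Defs
import Pool.Agent.H14.Fre.OM
import Pool.Agent.H14.Fre.NRM
import Pool.Agent.H14.Fre.TOP
import Pool.Agent.H14.Fre.FRE
import Pool.Agent.H14.Fre.O1
import Pool.Agent.H14.Fre.O2

/-!
# Sequences, the square, the final theorem
-/

open Set Filter Topology

namespace Pool.Agent.H14.Fre

variable {Ω : Type} [LinearOrder Ω]

theorem frechet_seq [OrderBot Ω] [Om1 Ω] (P : Phase Ω) (A : Set (Gr Ω))
    (hA : ∀ ε > 0, ∀ E : Finset Ω, ∃ g ∈ A, nrm g < ε ∧ ∀ δ ∈ E, |w P.o δ g| < ε) :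
    ∃ u : ℕ → Gr Ω, (∀ n, u n ∈ A) ∧ Tendsto (fun n => nrm (u n)) atTop (𝓝 0) ∧
      ∀ δ, Tendsto (fun n => w P.o δ (u n)) atTop (𝓝 0) := by
  classical
  obtain ⟨δ, hδ⟩ := frechet_core P A hA
  have hc : (Iic δ).Countable := by
    rw [← Iio_insert]
    exact (Om1.countable_Iio δ).insert δ
  obtain ⟨al, hal⟩ := hc.exists_eq_range ⟨δ, le_refl δ⟩
  have h1 : ∀ n : ℕ, ∃ g ∈ A, (∀ i ∈ g.support, i.2.1 < δ) ∧
      nrm g < 1 / ((n : ℝ) + 1) ∧
        ∀ γ ∈ (Finset.range (n + 1)).image al, |w P.o γ g| < 1 / ((n : ℝ) + 1) := by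
    intro n
    exact hδ _ (by positivity) _
  choose u hu hsupp hnrm hw using h1
  have hlim : Tendsto (fun n : ℕ => 1 / ((n : ℝ) + 1)) atTop (𝓝 0) :=
    tendsto_one_div_add_atTop_nhds_zero_nat
  have hn0 : Tendsto (fun n => nrm (u n)) atTop (𝓝 0) :=
    squeeze_zero (fun n => nrm_nonneg _) (fun n => (hnrm n).le) hlim
  have hle : ∀ γ ≤ δ, Tendsto (fun n => w P.o γ (u n)) atTop (𝓝 0) := by
    intro γ hγ
    have hγ' : γ ∈ range al := by rw [← hal]; exact hγ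
    obtain ⟨k, rfl⟩ := hγ'
    rw [tendsto_zero_iff_abs_tendsto_zero]
    refine squeeze_zero' (Eventually.of_forall fun n => abs_nonneg _) ?_ hlim
    filter_upwards [eventually_ge_atTop k] with n hn
    exact (hw n (al k) (Finset.mem_image.2 ⟨k, Finset.mem_range.2 (by omega), rfl⟩)).le
  refine ⟨u, hu, hn0, fun γ => ?_⟩
  rcases le_or_gt γ δ with hγ | hγ
  · exact hle γ hγ
  · obtain ⟨N, hN⟩ := P.bdd δ γ hγ
    have h2 : ∀ n, |w P.o γ (u n)| ≤ |w P.o δ (u n)| + N * nrm (u n) := by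
      intro n
      have := w_coherent P.o hγ.le N hN (u n) (hsupp n)
      have h3 := abs_sub_abs_le_abs_sub (w P.o γ (u n)) (w P.o δ (u n))
      linarith
    have h4 : Tendsto (fun n => |w P.o δ (u n)| + N * nrm (u n)) atTop (𝓝 0) := by
      have h5 : Tendsto (fun n => |w P.o δ (u n)|) atTop (𝓝 0) := by
        have := (hle δ le_rfl).abs
        simpa using this
      have h6 : Tendsto (fun n => (N : ℝ) * nrm (u n)) atTop (𝓝 0) := by
        have := hn0.const_mul (N : ℝ)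
        simpa using this
      simpa using h5.add h6
    exact squeeze_zero_norm (fun n => by rw [Real.norm_eq_abs]; exact h2 n) h4

theorem frechet_tau [OrderBot Ω] [Om1 Ω] (P : Phase Ω) :
    @FrechetUrysohnSpace (Gr Ω) (tau P.o) := by
  let _ : TopologicalSpace (Gr Ω) := tau P.o
  refine ⟨fun s x hx => ?_⟩
  have h1 := (mem_closure_tau P.o s x).1 hx
  obtain ⟨u, hu, hn, hw⟩ := frechet_seq P ((fun g => g - x) '' s) (by
    intro ε hε E
    obtain ⟨g, hg, h2, h3⟩ := h1 ε hε E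
    exact ⟨g - x, ⟨g, hg, rfl⟩, h2, h3⟩)
  choose v hv hvu using hu
  refine ⟨v, hv, ?_⟩
  refine (tendsto_tau P.o v x).2 ⟨?_, fun δ => ?_⟩
  · simpa only [hvu] using hn
  · have := hw δ
    simpa only [← hvu] using this

theorem mem_nhds_tau (o : Ω → Ω → ℕ) (U : Set (Gr Ω)) (x : Gr Ω)
    (hU : U ∈ @nhds _ (tau o) x) : ∃ ε > 0, ∃ E : Finset Ω, ∀ g : Gr Ω,
      nrm (g - x) < ε → (∀ δ ∈ E, |w o δ (g - x)| < ε) → g ∈ U := by
  let _ : TopologicalSpace (Gr Ω) := tau o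
  by_contra hcon
  push Not at hcon
  have h1 : x ∈ closure Uᶜ := by
    refine (mem_closure_tau o Uᶜ x).2 ?_
    intro ε hε E
    obtain ⟨g, h2, h3, h4⟩ := hcon ε hε E
    exact ⟨g, h4, h2, h3⟩
  rw [mem_closure_iff_nhds] at h1
  obtain ⟨y, hy1, hy2⟩ := h1 U hU
  exact hy2 hy1

theorem not_frechet_sq [OrderBot Ω] [Om1 Ω] (P : Phase Ω) :
    ¬ @FrechetUrysohnSpace (Gr Ω × Gr Ω) (@instTopologicalSpaceProd _ _ (tau P.o) (tau P.o)) := by
  classical
  intro hF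
  let _ : TopologicalSpace (Gr Ω) := tau P.o
  have : FrechetUrysohnSpace (Gr Ω × Gr Ω) := hF
  let B : Set (Gr Ω × Gr Ω) :=
    range fun p : ℕ × Ω => ((Finsupp.single (p.1, p.2, false) 1 : Gr Ω),
      (Finsupp.single (p.1, p.2, true) 1 : Gr Ω))
  have hcl : ((0 : Gr Ω), (0 : Gr Ω)) ∈ closure B := by
    rw [mem_closure_iff_nhds]
    intro t ht
    rw [nhds_prod_eq, mem_prod_iff] at ht
    obtain ⟨U, hU, V, hV, hUV⟩ := ht
    obtain ⟨ε₁, hε₁, E₁, h1⟩ := mem_nhds_tau P.o U 0 hU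
    obtain ⟨ε₂, hε₂, E₂, h2⟩ := mem_nhds_tau P.o V 0 hV
    obtain ⟨n, hn⟩ := exists_pow_lt_of_lt_one (lt_min hε₁ hε₂) (by norm_num : (1 / 2 : ℝ) < 1)
    obtain ⟨ξ, hξ⟩ := exists_gt_of_countable (Ω := Ω) (B := (↑(E₁ ∪ E₂) : Set Ω))
      (Finset.countable_toSet _)
    have hc : ∀ δ ∈ E₁ ∪ E₂, ∀ b : Bool, coef P.o δ (n, ξ, b) = 0 := by
      intro δ hδ b
      unfold coef
      exact if_neg (not_lt.2 (hξ δ (by exact_mod_cast hδ)).le)
    refine ⟨_, hUV ⟨h1 (Finsupp.single (n, ξ, false) 1) ?_ ?_,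
      h2 (Finsupp.single (n, ξ, true) 1) ?_ ?_⟩, ⟨(n, ξ), rfl⟩⟩
    · rw [sub_zero, nrm_single]
      simpa using lt_of_lt_of_le hn (min_le_left _ _)
    · intro δ hδ
      rw [sub_zero, w_single, hc δ (Finset.mem_union_left _ hδ)]
      simpa using hε₁
    · rw [sub_zero, nrm_single]
      simpa using lt_of_lt_of_le hn (min_le_right _ _)
    · intro δ hδ
      rw [sub_zero, w_single, hc δ (Finset.mem_union_right _ hδ)]
      simpa using hε₂
  obtain ⟨u, hu, hlim⟩ := mem_closure_iff_seq_limit.1 hcl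
  choose p hp using hu
  obtain ⟨δ, hδ⟩ := exists_gt_of_countable (Ω := Ω) (B := range fun n => (p n).2)
    (countable_range _)
  rw [nhds_prod_eq] at hlim
  have hl1 : Tendsto (fun n => (u n).1) atTop (𝓝 (0 : Gr Ω)) := tendsto_fst.comp hlim
  have hl2 : Tendsto (fun n => (u n).2) atTop (𝓝 (0 : Gr Ω)) := tendsto_snd.comp hlim
  have hw1 := ((tendsto_tau P.o _ _).1 hl1).2 δ
  have hw2 := ((tendsto_tau P.o _ _).1 hl2).2 δ
  have h3 : Tendsto (fun n => w P.o δ ((u n).1 - 0) ^ 2 + w P.o δ ((u n).2 - 0) ^ 2) atTop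
      (𝓝 (0 ^ 2 + 0 ^ 2)) := (hw1.pow 2).add (hw2.pow 2)
  have h4 : ∀ n, w P.o δ ((u n).1 - 0) ^ 2 + w P.o δ ((u n).2 - 0) ^ 2 = 1 := by
    intro n
    rw [← hp n]
    simp only [sub_zero, w_single]
    have h5 : (p n).2 < δ := hδ _ ⟨n, rfl⟩
    unfold coef phi
    simp only [h5, if_true, Bool.false_eq_true, if_false, add_zero, Int.cast_one, one_mul]
    rw [← sub_eq_add_neg, Real.cos_sub_pi_div_two]
    exact Real.cos_sq_add_sin_sq _
  simp only [h4] at h3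
  have h6 := tendsto_nhds_unique h3 tendsto_const_nhds
  norm_num at h6

/-- The phase function given by a `C`-sequence. -/
noncomputable def phaseOf {Ω : Type} [LinearOrder Ω] [OrderBot Ω] [Om1 Ω] (C : CSeq Ω) :
    Phase Ω where
  o := C.o
  bdd := fun _ _ h => C.o_bdd h
  shift := fun D hD m a ha k => C.o_shift D hD m a ha k

/-- Additive form of the final theorem. -/
theorem final_add : ∃ (G : Type) (_ : AddCommGroup G) (_ : TopologicalSpace G),
    IsTopologicalAddGroup G ∧ T2Space G ∧ FrechetUrysohnSpace G ∧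
      ¬ FrechetUrysohnSpace (G × G) := by
  obtain ⟨Ω, _, _, _⟩ := exists_om1
  obtain ⟨C⟩ := exists_cseq Ω
  exact ⟨Gr Ω, inferInstance, tau (phaseOf C).o, tau_group _, tau_t2 _, frechet_tau _,
    not_frechet_sq _⟩

/-- The final theorem. -/
theorem final : ∃ (G : Type) (_ : CommGroup G) (_ : TopologicalSpace G),
    IsTopologicalGroup G ∧ T2Space G ∧ FrechetUrysohnSpace G ∧
      ¬ FrechetUrysohnSpace (G × G) := by
  obtain ⟨G, _, _, h1, h2, h3, h4⟩ := final_add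
  exact ⟨Multiplicative G, inferInstance, inferInstance, inferInstance, h2, h3, h4⟩

end Pool.Agent.H14.Fre
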